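import Mathlib
import Pool.Agent.H75.LR.Stm

/-! Densities of bilinear forms and their behaviour under linear maps and transition maps. -/

open scoped Topology ContDiff Manifold
open Set Filter MeasureTheory Pool.Agent.H826R2.WStmt Pool.Agent.W671.RStmt
open Pool.Agent.H75.PRStmt Pool.Agent.H75.PR Pool.Agent.H75.LR

noncomputable section

set_option maxSynthPendingDepth 3
set_option linter.unusedSectionVars false

namespace Pool.Agent.H15.LR

section lin

variable {E : Type*} [NormedAddCommGroup E] [NormedSpace ℝ E]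
  {ι : Type*} [Fintype ι] [DecidableEq ι] (b : Module.Basis ι ℝ E)

/-- the density of a pulled back bilinear form -/
lemma dens_pull {Q Q' : E →L[ℝ] E →L[ℝ] ℝ} {L : E →L[ℝ] E} (h : ∀ u v, Q' u v = Q (L u) (L v)) :
    dens b Q' = |L.det| * dens b Q := by
  set A : Matrix ι ι ℝ := LinearMap.toMatrix b b (L : E →ₗ[ℝ] E) with hA
  have h1 : ∀ i, L (b i) = ∑ k, A k i • b k := by
    intro i
    have h2 := b.sum_repr (L (b i))
    rw [← h2]
    refine Finset.sum_congr rfl fun k _ => ?_
    rw [hA, LinearMap.toMatrix_apply]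
    rfl
  have h3 : (Matrix.of fun i j => Q' (b i) (b j)) =
      A.transpose * (Matrix.of fun i j => Q (b i) (b j)) * A := by
    ext i j
    rw [Matrix.of_apply, h, h1 i, h1 j]
    simp only [map_sum, map_smul, sum_apply, FunLike.coe_smul, Pi.smul_apply,
      smul_eq_mul, Matrix.mul_apply, Matrix.transpose_apply, Matrix.of_apply, Finset.sum_mul,
      Finset.mul_sum]
    refine Finset.sum_congr rfl fun k _ => ?_
    refine Finset.sum_congr rfl fun l _ => ?_
    ring
  have h4 : A.det = L.det := by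
    rw [hA, LinearMap.det_toMatrix]
  unfold dens
  rw [h3, Matrix.det_mul, Matrix.det_mul, Matrix.det_transpose, h4, abs_mul, abs_mul]
  rw [show |L.det| * |(Matrix.of fun i j => Q (b i) (b j)).det| * |L.det| =
    |L.det| ^ 2 * |(Matrix.of fun i j => Q (b i) (b j)).det| by ring,
    Real.sqrt_mul (by positivity), Real.sqrt_sq (abs_nonneg _)]

lemma det_ne_zero {Q : E →L[ℝ] E →L[ℝ] ℝ} (h : ∀ u, Q u = 0 → u = 0) :
    (Matrix.of fun i j => Q (b i) (b j)).det ≠ 0 := by
  intro h0
  obtain ⟨c, hc, hc2⟩ := Matrix.exists_vecMul_eq_zero_iff.2 h0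
  apply hc
  have h1 : Q (∑ i, c i • b i) = 0 := by
    apply ContinuousLinearMap.coe_injective
    apply b.ext
    intro j
    have h2 := congrFun hc2 j
    simp only [Matrix.vecMul, dotProduct, Matrix.of_apply, Pi.zero_apply] at h2
    simpa using h2
  have h2 := h _ h1
  funext i
  exact (Fintype.linearIndependent_iff.1 b.linearIndependent) c h2 i

lemma dens_pos {Q : E →L[ℝ] E →L[ℝ] ℝ} (h : ∀ u, Q u = 0 → u = 0) : 0 < dens b Q :=
  Real.sqrt_pos.2 (abs_pos.2 (det_ne_zero b h))

lemma contDiffOn_dens {P : Type*} [NormedAddCommGroup P] [NormedSpace ℝ P] {n : ℕ∞ω}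
    {Q : P → E →L[ℝ] E →L[ℝ] ℝ} {U : Set P}
    (hQ : ContDiffOn ℝ n Q U) (h : ∀ y ∈ U, ∀ u, Q y u = 0 → u = 0) :
    ContDiffOn ℝ n (fun y => dens b (Q y)) U := by
  have h1 : ContDiffOn ℝ n (fun y => (Matrix.of fun i j => Q y (b i) (b j)).det) U := by
    simp only [Matrix.det_apply]
    refine ContDiffOn.sum fun σ _ => ?_
    refine ContDiffOn.const_smul _ ?_
    refine contDiffOn_prod fun i _ => ?_
    exact (hQ.clm_apply contDiffOn_const).clm_apply contDiffOn_const
  intro y hy
  have h2 : (Matrix.of fun i j => Q y (b i) (b j)).det ≠ 0 := det_ne_zero b (h y hy)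
  have h3 : ContDiffWithinAt ℝ n
      (fun y => |(Matrix.of fun i j => Q y (b i) (b j)).det|) U y := by
    rcases lt_or_gt_of_ne h2 with h4 | h4
    · refine ((h1 y hy).neg).congr_of_eventuallyEq ?_ (abs_of_neg h4)
      filter_upwards [(h1 y hy).continuousWithinAt.eventually_lt continuousWithinAt_const h4]
        with z hz using abs_of_neg hz
    · refine (h1 y hy).congr_of_eventuallyEq ?_ (abs_of_pos h4)
      filter_upwards [continuousWithinAt_const.eventually_lt (h1 y hy).continuousWithinAt h4]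
        with z hz using abs_of_pos hz
  exact h3.sqrt (abs_ne_zero.2 h2)

end lin

section mf

universe u v

variable {E : Type u} [NormedAddCommGroup E] [NormedSpace ℝ E] [FiniteDimensional ℝ E]
  {M : Type v} [TopologicalSpace M] [ChartedSpace E M] [IsManifold 𝓘(ℝ, E) ∞ M]

/-- the map `F` read in the charts at `p` and `q` -/
def tau (E : Type*) [NormedAddCommGroup E] [NormedSpace ℝ E] {M : Type*} [TopologicalSpace M]
    [ChartedSpace E M] (F : M → M) (p q : M) : E → E := fun y => ch E q (F ((ch E p).symm y))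

/-- the domain of `tau` -/
def ov (E : Type*) [NormedAddCommGroup E] [NormedSpace ℝ E] {M : Type*} [TopologicalSpace M]
    [ChartedSpace E M] (F : M → M) (p q : M) : Set E :=
  {y | y ∈ (ch E p).target ∧ F ((ch E p).symm y) ∈ (ch E q).source}

variable {F : M → M} {p q : M} {B : M → Bil E}

lemma isOpen_ov (hF : Continuous F) : IsOpen (ov E F p q) := by
  have h1 : ContinuousOn (fun y => F ((ch E p).symm y)) (ch E p).target :=
    hF.comp_continuousOn (continuousOn_extChartAt_symm p)
  exact h1.isOpen_inter_preimage (isOpen_extChartAt_target p) (isOpen_extChartAt_source q)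

lemma contDiffAt_tau (hF : ContMDiff 𝓘(ℝ, E) 𝓘(ℝ, E) ∞ F) {y : E} (hy : y ∈ ov E F p q) :
    ContDiffAt ℝ ∞ (tau E F p q) y := by
  rw [← contMDiffAt_iff_contDiffAt]
  have h1 : ContMDiffAt 𝓘(ℝ, E) 𝓘(ℝ, E) ∞ (ch E q) (F ((ch E p).symm y)) :=
    contMDiffAt_extChartAt' (by simpa only [extChartAt_source] using hy.2)
  have h2 : ContMDiffAt 𝓘(ℝ, E) 𝓘(ℝ, E) ∞ (ch E p).symm y :=
    (contMDiffOn_extChartAt_symm (n := ∞) p).contMDiffAt
      ((isOpen_extChartAt_target p).mem_nhds hy.1)
  exact ContMDiffAt.comp y h1 (ContMDiffAt.comp y (hF _) h2)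

lemma Dsy_tau (hF : ContMDiff 𝓘(ℝ, E) 𝓘(ℝ, E) ∞ F) {y : E} (hy : y ∈ ov E F p q) (v : E) :
    Dsy E q (tau E F p q y) (fderiv ℝ (tau E F p q) y v) =
      D (E := E) (E' := E) F ((ch E p).symm y) (Dsy E p y v) := by
  have h0 : tau E F p q y ∈ (ch E q).target := (ch E q).map_source hy.2
  have hd : MDifferentiableAt 𝓘(ℝ, E) 𝓘(ℝ, E) (tau E F p q) y :=
    ((contDiffAt_tau hF hy).differentiableAt (by simp)).mdifferentiableAt
  have h1 := D_comp (f := (ch E q).symm) (h := tau E F p q) (x := y) (mdiff_symm h0) hd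
  have h2 : (ch E q).symm ∘ tau E F p q =ᶠ[𝓝 y] F ∘ (ch E p).symm := by
    filter_upwards [(isOpen_ov hF.continuous).mem_nhds hy] with z hz
    exact (ch E q).left_inv hz.2
  rw [D_congr h2, D_comp (hF.mdifferentiableAt (by simp)) (mdiff_symm hy.1)] at h1
  have h3 := DFunLike.congr_fun h1 v
  rw [← D_eq_fderiv]
  exact h3.symm

lemma symm_tau {y : E} (hy : y ∈ ov E F p q) :
    (ch E q).symm (tau E F p q y) = F ((ch E p).symm y) := (ch E q).left_inv hy.2

lemma cBil_tau (hF : ContMDiff 𝓘(ℝ, E) 𝓘(ℝ, E) ∞ F)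
    (hB : ∀ x u v, bev (B (F x)) (D (E := E) (E' := E) F x u) (D (E := E) (E' := E) F x v) =
          bev (B x) u v) {y : E} (hy : y ∈ ov E F p q) (u v : E) :
    cBil B p y u v =
      cBil B q (tau E F p q y) (fderiv ℝ (tau E F p q) y u) (fderiv ℝ (tau E F p q) y v) := by
  rw [cBil_apply, cBil_apply, Dsy_tau hF hy, Dsy_tau hF hy, symm_tau hy, hB]

lemma cBil_nd (hB : ∀ x u, (∀ v, bev (B x) u v = 0) → u = 0) {y : E}
    (hy : y ∈ (ch E p).target) {u : E} (h : cBil B p y u = 0) : u = 0 := by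
  apply Dsy_injective hy
  apply hB ((ch E p).symm y)
  intro v
  have h1 := D_symm_chart ((ch E p).map_target hy) v
  rw [(ch E p).right_inv hy] at h1
  rw [← h1, ← cBil_apply, h]
  rfl

variable {ι : Type} [Fintype ι] [DecidableEq ι] (b : Module.Basis ι ℝ E)

/-- the density of `B` in the chart at `p` -/
def rho (B : M → Bil E) (p : M) (y : E) : ℝ := dens b (cBil B p y)

lemma rho_pos (hB : ∀ x u, (∀ v, bev (B x) u v = 0) → u = 0) {y : E}
    (hy : y ∈ (ch E p).target) : 0 < rho b B p y := dens_pos b fun _ => cBil_nd hB hy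

lemma contDiffOn_rho (hs : SmoothBil B) (hB : ∀ x u, (∀ v, bev (B x) u v = 0) → u = 0) :
    ContDiffOn ℝ ∞ (rho b B p) (ch E p).target :=
  contDiffOn_dens b (hs p) fun _ hy _ => cBil_nd hB hy

variable [MeasurableSpace E] [BorelSpace E] (μ : Measure E) [μ.IsAddHaarMeasure]

/-- change of variables -/
theorem change (hF : ContMDiff 𝓘(ℝ, E) 𝓘(ℝ, E) ∞ F) (hinj : Function.Injective F)
    (hB : ∀ x u v, bev (B (F x)) (D (E := E) (E' := E) F x u) (D (E := E) (E' := E) F x v) =
          bev (B x) u v) (φ : M → ℝ)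
    (hφ : ∀ x, φ x ≠ 0 → x ∈ (ch E q).source ∧ ∃ x' ∈ (ch E p).source, F x' = x) :
    ∫ y in (ch E p).target, φ (F ((ch E p).symm y)) * rho b B p y ∂μ =
      ∫ z in (ch E q).target, φ ((ch E q).symm z) * rho b B q z ∂μ := by
  have ho := isOpen_ov (E := E) (p := p) (q := q) hF.continuous
  have h1 : ∫ y in (ch E p).target, φ (F ((ch E p).symm y)) * rho b B p y ∂μ =
      ∫ y in ov E F p q, φ (F ((ch E p).symm y)) * rho b B p y ∂μ := by
    refine setIntegral_eq_of_subset_of_forall_sdiff_eq_zero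
      (isOpen_extChartAt_target p).measurableSet (fun y hy => hy.1) fun y hy => ?_
    have h2 : φ (F ((ch E p).symm y)) = 0 := by
      by_contra h3
      exact hy.2 ⟨hy.1, (hφ _ h3).1⟩
    rw [h2, zero_mul]
  have himg : tau E F p q '' ov E F p q ⊆ (ch E q).target := by
    rintro _ ⟨y, hy, rfl⟩
    exact (ch E q).map_source hy.2
  have hinjO : InjOn (tau E F p q) (ov E F p q) := by
    intro y hy z hz hyz
    have h2 : F ((ch E p).symm y) = F ((ch E p).symm z) := by
      rw [← symm_tau hy, ← symm_tau hz, hyz]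
    have h3 := hinj h2
    rw [← (ch E p).right_inv hy.1, ← (ch E p).right_inv hz.1, h3]
  have hd : ∀ y ∈ ov E F p q, HasFDerivWithinAt (tau E F p q) (fderiv ℝ (tau E F p q) y)
      (ov E F p q) y := fun y hy =>
    ((contDiffAt_tau hF hy).differentiableAt (by simp)).hasFDerivAt.hasFDerivWithinAt
  have h4 := integral_image_eq_integral_abs_det_fderiv_smul μ ho.measurableSet hd hinjO
    (fun z => φ ((ch E q).symm z) * rho b B q z)
  have hmeas : MeasurableSet (tau E F p q '' ov E F p q) :=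
    measurable_image_of_fderivWithin ho.measurableSet hd hinjO
  have h5 : ∫ z in (ch E q).target, φ ((ch E q).symm z) * rho b B q z ∂μ =
      ∫ z in tau E F p q '' ov E F p q, φ ((ch E q).symm z) * rho b B q z ∂μ := by
    refine setIntegral_eq_of_subset_of_forall_sdiff_eq_zero
      (isOpen_extChartAt_target q).measurableSet himg fun z hz => ?_
    have h2 : φ ((ch E q).symm z) = 0 := by
      by_contra h3
      obtain ⟨-, x', hx', hx2⟩ := hφ _ h3
      apply hz.2
      have h6 : ch E p x' ∈ ov E F p q := by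
        refine ⟨(ch E p).map_source hx', ?_⟩
        rw [(ch E p).left_inv hx', hx2]
        exact (ch E q).map_target hz.1
      refine ⟨ch E p x', h6, ?_⟩
      show ch E q (F ((ch E p).symm (ch E p x'))) = z
      rw [(ch E p).left_inv hx', hx2, (ch E q).right_inv hz.1]
    rw [h2, zero_mul]
  rw [h1, h5, h4]
  refine setIntegral_congr_fun ho.measurableSet fun y hy => ?_
  simp only [smul_eq_mul]
  rw [symm_tau hy]
  have h7 : rho b B p y = |(fderiv ℝ (tau E F p q) y).det| * rho b B q (tau E F p q y) :=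
    dens_pull b fun u v => cBil_tau hF hB hy u v
  rw [h7]
  ring

end mf

end Pool.Agent.H15.LR
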