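import Mathlib
import Pool.Agent.H75.LR.Stm

/-! The integral of the divergence of a compactly supported vector field; integration by parts. -/

open scoped Topology ContDiff Manifold
open Set Filter MeasureTheory
open Pool.Agent.H75.LR

noncomputable section

set_option linter.unusedSectionVars false

namespace Pool.Agent.H15.LR

variable {E : Type*} [NormedAddCommGroup E] [NormedSpace ℝ E] [FiniteDimensional ℝ E]
  [MeasurableSpace E] [BorelSpace E] (μ : Measure E) [μ.IsAddHaarMeasure]

omit [MeasurableSpace E] [BorelSpace E] in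
/-- zero extension of a function which vanishes off a compact subset -/
lemma contDiff_indicator {G : Type*} [NormedAddCommGroup G] [NormedSpace ℝ G] {n : ℕ∞ω}
    {f : E → G} {U K : Set E} (hU : IsOpen U) (hf : ContDiffOn ℝ n f U) (hK : IsCompact K)
    (hKU : K ⊆ U) (h0 : ∀ y ∈ U, y ∉ K → f y = 0) : ContDiff ℝ n (U.indicator f) := by
  rw [contDiff_iff_contDiffAt]
  intro y
  by_cases hy : y ∈ K
  · have h1 : U.indicator f =ᶠ[𝓝 y] f := by
      filter_upwards [hU.mem_nhds (hKU hy)] with z hz using indicator_of_mem hz f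
    exact (hf.contDiffAt (hU.mem_nhds (hKU hy))).congr_of_eventuallyEq h1
  · have h1 : U.indicator f =ᶠ[𝓝 y] fun _ => 0 := by
      filter_upwards [hK.isClosed.isOpen_compl.mem_nhds hy] with z hz
      by_cases hzU : z ∈ U
      · rw [indicator_of_mem hzU, h0 z hzU hz]
      · exact indicator_of_notMem hzU f
    exact contDiffAt_const.congr_of_eventuallyEq h1

omit [FiniteDimensional ℝ E] [MeasurableSpace E] [BorelSpace E] in
lemma hasCompactSupport_indicator {G : Type*} [NormedAddCommGroup G]
    {f : E → G} {U K : Set E} (hK : IsCompact K) (h0 : ∀ y ∈ U, y ∉ K → f y = 0) :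
    HasCompactSupport (U.indicator f) := by
  refine HasCompactSupport.intro hK fun y hy => ?_
  by_cases hyU : y ∈ U
  · rw [indicator_of_mem hyU, h0 y hyU hy]
  · exact indicator_of_notMem hyU f

lemma int_fderiv {F : E → ℝ} (hF : ContDiff ℝ 1 F) (hc : HasCompactSupport F) (v : E) :
    ∫ z, fderiv ℝ F z v ∂μ = 0 := by
  have hcd : HasCompactSupport (fun z => fderiv ℝ F z v) := hc.fderiv_apply ℝ v
  have hct : Continuous (fun z => fderiv ℝ F z v) :=
    (hF.continuous_fderiv (by simp)).clm_apply continuous_const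
  have := integral_mul_fderiv_eq_neg_fderiv_mul_of_integrable (μ := μ) (𝕜 := ℝ)
    (f := fun _ : E => (1 : ℝ)) (g := F) (v := v) (by simp)
    (by simpa using hct.integrable_of_hasCompactSupport hcd)
    (by simpa using hF.continuous.integrable_of_hasCompactSupport hc)
    (fun x _ => differentiableAt_const _)
    (fun x _ => hF.contDiffAt.differentiableAt (by simp))
  simpa using this

omit [FiniteDimensional ℝ E] [MeasurableSpace E] [BorelSpace E] in
lemma trace_eq {ι : Type*} [Fintype ι] [DecidableEq ι] (b : Module.Basis ι ℝ E) (L : E →L[ℝ] E) :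
    LinearMap.trace ℝ E (L : E →ₗ[ℝ] E) = ∑ i, b.coord i (L (b i)) := by
  rw [LinearMap.trace_eq_matrix_trace ℝ b, Matrix.trace]
  refine Finset.sum_congr rfl fun i _ => ?_
  rw [Matrix.diag_apply, LinearMap.toMatrix_apply]
  rfl

omit [MeasurableSpace E] [BorelSpace E] in
lemma divE_eq {ι : Type*} [Fintype ι] [DecidableEq ι] (b : Module.Basis ι ℝ E) {V : E → E} {z : E}
    (hV : DifferentiableAt ℝ V z) :
    divE V z = ∑ i, fderiv ℝ (fun y => b.coord i (V y)) z (b i) := by
  unfold divE
  rw [trace_eq b]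
  refine Finset.sum_congr rfl fun i _ => ?_
  have h1 : HasFDerivAt (fun y => (b.coord i).toContinuousLinearMap (V y))
      ((b.coord i).toContinuousLinearMap.comp (fderiv ℝ V z)) z :=
    (b.coord i).toContinuousLinearMap.hasFDerivAt.comp z hV.hasFDerivAt
  have h2 : (fun y => b.coord i (V y)) = fun y => (b.coord i).toContinuousLinearMap (V y) := rfl
  rw [h2, h1.fderiv]
  rfl

/-- the integral of a divergence vanishes -/
theorem int_divE {ι : Type*} [Fintype ι] [DecidableEq ι] (b : Module.Basis ι ℝ E) {V : E → E}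
    (hV : ContDiff ℝ 1 V) (hc : HasCompactSupport V) : ∫ z, divE V z ∂μ = 0 := by
  have h1 : ∀ z, divE V z = ∑ i, fderiv ℝ (fun y => b.coord i (V y)) z (b i) := fun z =>
    divE_eq b (hV.contDiffAt.differentiableAt (by simp))
  simp_rw [h1]
  have h2 : ∀ i, ContDiff ℝ 1 (fun y => b.coord i (V y)) := fun i =>
    (b.coord i).toContinuousLinearMap.contDiff.comp hV
  have h3 : ∀ i, HasCompactSupport (fun y => b.coord i (V y)) := fun i =>
    hc.comp_left (g := fun a : E => b.coord i a) (map_zero _)
  rw [integral_finsetSum]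
  · exact Finset.sum_eq_zero fun i _ => int_fderiv μ (h2 i) (h3 i) _
  · intro i _
    exact (((h2 i).continuous_fderiv (by simp)).clm_apply
      continuous_const).integrable_of_hasCompactSupport ((h3 i).fderiv_apply ℝ _)

omit [MeasurableSpace E] [BorelSpace E] in
/-- divergence of a product -/
lemma divE_smul {χ : E → ℝ} {V : E → E} {z : E} (hχ : DifferentiableAt ℝ χ z)
    (hV : DifferentiableAt ℝ V z) :
    divE (fun y => χ y • V y) z = χ z * divE V z + fderiv ℝ χ z (V z) := by
  unfold divE
  have h1 := hχ.hasFDerivAt.smul hV.hasFDerivAt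
  have h3 : fderiv ℝ (fun y => χ y • V y) z =
      χ z • fderiv ℝ V z + (fderiv ℝ χ z).smulRight (V z) := h1.fderiv
  rw [h3]
  have h2 : ((χ z • fderiv ℝ V z + (fderiv ℝ χ z).smulRight (V z) : E →L[ℝ] E) : E →ₗ[ℝ] E) =
      χ z • (fderiv ℝ V z : E →ₗ[ℝ] E) +
        ((fderiv ℝ χ z : E →L[ℝ] ℝ) : E →ₗ[ℝ] ℝ).smulRight (V z) := rfl
  rw [h2, map_add, map_smul, LinearMap.trace_smulRight]
  rfl

lemma integrableOn_of_compact {G : Type*} [NormedAddCommGroup G] {f : E → G} {U K : Set E}
    (hU : IsOpen U) (hf : ContinuousOn f U) (hK : IsCompact K)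
    (hKU : K ⊆ U) (h0 : ∀ y ∈ U, y ∉ K → f y = 0) : IntegrableOn f U μ :=
  ((hf.mono hKU).integrableOn_compact hK).of_forall_sdiff_eq_zero hU.measurableSet
    fun y hy => h0 y hy.1 hy.2

omit [MeasurableSpace E] [BorelSpace E] in
lemma continuousOn_divE {ι : Type*} [Fintype ι] [DecidableEq ι] (b : Module.Basis ι ℝ E)
    {U : Set E} (hU : IsOpen U) {V : E → E} (hV : ContDiffOn ℝ 1 V U) :
    ContinuousOn (divE V) U := by
  have h4 : ContinuousOn (fderiv ℝ V) U := hV.continuousOn_fderiv_of_isOpen hU (by simp)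
  have h5 : divE V = fun z => ∑ i, b.coord i (fderiv ℝ V z (b i)) := funext fun z => trace_eq b _
  rw [h5]
  refine continuousOn_finsetSum _ fun i _ => ?_
  exact (b.coord i).toContinuousLinearMap.continuous.comp_continuousOn
    (h4.clm_apply continuousOn_const)

/-- integration by parts on an open set -/
theorem ibp {ι : Type*} [Fintype ι] [DecidableEq ι] (b : Module.Basis ι ℝ E)
    {U K : Set E} (hU : IsOpen U) (hK : IsCompact K) (hKU : K ⊆ U)
    {χ : E → ℝ} (hχ : ContDiffOn ℝ 1 χ U) (h0 : ∀ y ∈ U, y ∉ K → χ y = 0) {V : E → E}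
    (hV : ContDiffOn ℝ 1 V U) :
    ∫ z in U, χ z * divE V z ∂μ = - ∫ z in U, fderiv ℝ χ z (V z) ∂μ := by
  have hW : ContDiffOn ℝ 1 (fun y => χ y • V y) U := hχ.smul hV
  have hW0 : ∀ y ∈ U, y ∉ K → χ y • V y = 0 := fun y hy hyK => by rw [h0 y hy hyK, zero_smul]
  have h1 := int_divE μ b (contDiff_indicator hU hW hK hKU hW0)
    (hasCompactSupport_indicator hK hW0)
  have h2 : (fun z => divE (U.indicator fun y => χ y • V y) z) =
      U.indicator (fun z => χ z * divE V z + fderiv ℝ χ z (V z)) := by
    funext z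
    by_cases hz : z ∈ U
    · rw [indicator_of_mem hz]
      have h3 : (U.indicator fun y => χ y • V y) =ᶠ[𝓝 z] fun y => χ y • V y := by
        filter_upwards [hU.mem_nhds hz] with w hw using indicator_of_mem hw _
      rw [← divE_smul ((hχ.contDiffAt (hU.mem_nhds hz)).differentiableAt (by simp))
        ((hV.contDiffAt (hU.mem_nhds hz)).differentiableAt (by simp))]
      unfold divE
      rw [h3.fderiv_eq]
    · rw [indicator_of_notMem hz]
      have hzK : z ∉ K := fun h => hz (hKU h)
      have h3 : (U.indicator fun y => χ y • V y) =ᶠ[𝓝 z] fun _ => 0 := by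
        filter_upwards [hK.isClosed.isOpen_compl.mem_nhds hzK] with w hw
        by_cases hwU : w ∈ U
        · rw [indicator_of_mem hwU, hW0 w hwU hw]
        · exact indicator_of_notMem hwU _
      unfold divE
      rw [h3.fderiv_eq, fderiv_const_apply]
      exact map_zero _
  rw [h2, integral_indicator hU.measurableSet] at h1
  have hc1 : ContinuousOn (fun z => χ z * divE V z) U := by
    exact hχ.continuousOn.mul (continuousOn_divE b hU hV)
  have hc2 : ContinuousOn (fun z => fderiv ℝ χ z (V z)) U :=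
    (hχ.continuousOn_fderiv_of_isOpen hU (by simp)).clm_apply hV.continuousOn
  have h6 : ∀ y ∈ U, y ∉ K → fderiv ℝ χ y (V y) = 0 := by
    intro y hy hyK
    have h7 : χ =ᶠ[𝓝 y] fun _ => 0 := by
      filter_upwards [hU.mem_nhds hy, hK.isClosed.isOpen_compl.mem_nhds hyK] with w hw hw2
        using h0 w hw hw2
    rw [h7.fderiv_eq]
    simp
  rw [integral_add (integrableOn_of_compact μ hU hc1 hK hKU fun y hy hyK => by
      rw [h0 y hy hyK, zero_mul])
    (integrableOn_of_compact μ hU hc2 hK hKU h6)] at h1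
  linarith

end Pool.Agent.H15.LR
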