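import Mathlib
import Pool.Agent.H15.LR.Dens
import Pool.Agent.H15.LR.Ibp

/-! The divergence theorem on a closed manifold. -/

open scoped Topology ContDiff Manifold
open Set Filter MeasureTheory Pool.Agent.H826R2.WStmt Pool.Agent.W671.RStmt
open Pool.Agent.H75.PRStmt Pool.Agent.H75.PR Pool.Agent.H75.LR

noncomputable section

set_option maxSynthPendingDepth 3
set_option linter.unusedSectionVars false

namespace Pool.Agent.H15.LR

universe u v

variable {E : Type u} [NormedAddCommGroup E] [NormedSpace ℝ E] [FiniteDimensional ℝ E]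
  {M : Type v} [TopologicalSpace M] [ChartedSpace E M] [IsManifold 𝓘(ℝ, E) ∞ M]

/-- a finite smooth partition of unity subordinate to charts -/
theorem partition [T2Space M] [CompactSpace M] :
    ∃ (t : Finset M) (χ : t → M → ℝ), (∀ i, ContMDiff 𝓘(ℝ, E) 𝓘(ℝ, ℝ) ∞ (χ i)) ∧
      (∀ i x, 0 ≤ χ i x) ∧ (∀ x, ∑ i, χ i x = 1) ∧
      ∀ i : t, tsupport (χ i) ⊆ (ch E (i : M)).source := by
  obtain ⟨t, ht⟩ := (isCompact_univ (X := M)).elim_finite_subcover
    (fun p : M => (ch E p).source) (fun p => isOpen_extChartAt_source p)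
    (fun x _ => mem_iUnion.2 ⟨x, mem_extChartAt_source x⟩)
  have h2 : (univ : Set M) ⊆ ⋃ i : t, (ch E (i : M)).source := by
    intro x hx
    obtain ⟨p, hp, hxp⟩ := mem_iUnion₂.1 (ht hx)
    exact mem_iUnion.2 ⟨⟨p, hp⟩, hxp⟩
  obtain ⟨f, hf⟩ := SmoothPartitionOfUnity.exists_isSubordinate 𝓘(ℝ, E) isClosed_univ
    (fun i : t => (ch E (i : M)).source) (fun i => isOpen_extChartAt_source _) h2
  refine ⟨t, fun i => f i, fun i => (f i).contMDiff, fun i x => f.nonneg i x, fun x => ?_,
    fun i => hf i⟩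
  rw [← finsum_eq_sum_of_fintype]
  exact f.sum_eq_one (mem_univ x)

variable {ι : Type} [Fintype ι] [DecidableEq ι] (b : Module.Basis ι ℝ E)
  [MeasurableSpace E] [BorelSpace E] (μ : Measure E) [μ.IsAddHaarMeasure]
  {B : M → Bil E}

/-- the integral of a function supported in the domain of the chart at `p` -/
def J (B : M → Bil E) (p : M) (φ : M → ℝ) : ℝ :=
  ∫ y in (ch E p).target, φ ((ch E p).symm y) * rho b B p y ∂μ

/-- `φ` is continuous, with support in the domain of the chart at `p` -/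
structure Adm (E : Type*) [NormedAddCommGroup E] [NormedSpace ℝ E]
    {M : Type*} [TopologicalSpace M] [ChartedSpace E M] (p : M) (φ : M → ℝ) : Prop where
  cont : Continuous φ
  supp : tsupport φ ⊆ (ch E p).source

lemma Adm.mul_right {p : M} {φ ψ : M → ℝ} (h : Adm E p φ) (hψ : Continuous ψ) :
    Adm E p (fun x => φ x * ψ x) :=
  ⟨h.cont.mul hψ, (tsupport_mul_subset_left).trans h.supp⟩

lemma Adm.mul_left {p : M} {φ ψ : M → ℝ} (h : Adm E p φ) (hψ : Continuous ψ) :
    Adm E p (fun x => ψ x * φ x) :=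
  ⟨hψ.mul h.cont, (tsupport_mul_subset_right).trans h.supp⟩

/-- the image of the support in the chart -/
def KK (E : Type*) [NormedAddCommGroup E] [NormedSpace ℝ E]
    {M : Type*} [TopologicalSpace M] [ChartedSpace E M] (p : M) (φ : M → ℝ) : Set E :=
  ch E p '' tsupport φ

lemma isCompact_KK [T2Space M] [CompactSpace M] {p : M} {φ : M → ℝ}
    (h : tsupport φ ⊆ (ch E p).source) : IsCompact (KK E p φ) :=
  (isClosed_tsupport φ).isCompact.image_of_continuousOn ((continuousOn_extChartAt p).mono h)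

lemma KK_subset {p : M} {φ : M → ℝ}
    (h : tsupport φ ⊆ (ch E p).source) : KK E p φ ⊆ (ch E p).target := by
  rintro _ ⟨x, hx, rfl⟩
  exact (ch E p).map_source (h hx)

lemma KK_off {p : M} {φ : M → ℝ} {y : E} (hy : y ∈ (ch E p).target) (hK : y ∉ KK E p φ) :
    φ ((ch E p).symm y) = 0 := by
  by_contra h
  exact hK ⟨(ch E p).symm y, subset_tsupport _ h, (ch E p).right_inv hy⟩

lemma continuousOn_symm (p : M) : ContinuousOn (ch E p).symm (ch E p).target :=
  continuousOn_extChartAt_symm p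

theorem integ [T2Space M] [CompactSpace M] (hs : SmoothBil B)
    (hB : ∀ x u, (∀ v, bev (B x) u v = 0) → u = 0) {p : M} {φ : M → ℝ} (h : Adm E p φ) :
    IntegrableOn (fun y => φ ((ch E p).symm y) * rho b B p y) (ch E p).target μ := by
  refine integrableOn_of_compact μ (isOpen_extChartAt_target p) ?_ (isCompact_KK h.supp)
    (KK_subset h.supp) fun y hy hyK => by rw [KK_off hy hyK, zero_mul]
  exact (h.cont.comp_continuousOn (continuousOn_symm p)).mul (contDiffOn_rho b hs hB).continuousOn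

theorem J_sum [T2Space M] [CompactSpace M] (hs : SmoothBil B)
    (hB : ∀ x u, (∀ v, bev (B x) u v = 0) → u = 0) {p : M} {κ : Type*} (s : Finset κ)
    {φ : κ → M → ℝ} (h : ∀ i ∈ s, Adm E p (φ i)) :
    J b μ B p (fun x => ∑ i ∈ s, φ i x) = ∑ i ∈ s, J b μ B p (φ i) := by
  unfold J
  simp_rw [Finset.sum_mul]
  exact integral_finsetSum _ fun i hi => integ b μ hs hB (h i hi)

theorem J_change {F : M → M} {p q : M} (hF : ContMDiff 𝓘(ℝ, E) 𝓘(ℝ, E) ∞ F)
    (hinj : Function.Injective F)
    (hB : ∀ x u v, bev (B (F x)) (D (E := E) (E' := E) F x u) (D (E := E) (E' := E) F x v) =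
          bev (B x) u v) (φ : M → ℝ)
    (hφ : ∀ x, φ x ≠ 0 → x ∈ (ch E q).source ∧ ∃ x' ∈ (ch E p).source, F x' = x) :
    J b μ B p (fun x => φ (F x)) = J b μ B q φ := change b μ hF hinj hB φ hφ

lemma D_id (x : M) (u : E) : D (E := E) (E' := E) (fun x : M => x) x u = u := by
  have h : D (E := E) (E' := E) (fun x : M => x) x = ContinuousLinearMap.id ℝ E := mfderiv_id
  rw [h]
  rfl

theorem J_change_id {p q : M} (φ : M → ℝ)
    (hφ : ∀ x, φ x ≠ 0 → x ∈ (ch E q).source ∧ x ∈ (ch E p).source) :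
    J b μ B p φ = J b μ B q φ :=
  J_change b μ (F := fun x => x) contMDiff_id Function.injective_id
    (fun x u v => by rw [D_id, D_id]) φ fun x hx => ⟨(hφ x hx).1, x, (hφ x hx).2, rfl⟩

section dv

variable [T2Space M] [CompactSpace M]

/-- the derivative of a function along the vector field `X` -/
def dX (X : M → E) (χ : M → ℝ) (x : M) : ℝ := D (E := E) (E' := ℝ) χ x (X x)

lemma Dsy_cVec (X : M → E) {p : M} {y : E} (hy : y ∈ (ch E p).target) :
    Dsy E p y (cVec X p y) = X ((ch E p).symm y) := by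
  have h := D_symm_chart ((ch E p).map_target hy) (X ((ch E p).symm y))
  rw [(ch E p).right_inv hy] at h
  exact h

lemma dX_symm {X : M → E} {χ : M → ℝ} (hχ : ContMDiff 𝓘(ℝ, E) 𝓘(ℝ, ℝ) ∞ χ) {p : M} {y : E}
    (hy : y ∈ (ch E p).target) :
    dX X χ ((ch E p).symm y) = fderiv ℝ (χ ∘ (ch E p).symm) y (cVec X p y) := by
  rw [fderiv_imm hχ hy, Dsy_cVec X hy]
  rfl

lemma continuous_dX {X : M → E} (hX : ∀ p : M, ContDiffOn ℝ 1 (cVec X p) (ch E p).target)
    {χ : M → ℝ} (hχ : ContMDiff 𝓘(ℝ, E) 𝓘(ℝ, ℝ) ∞ χ) : Continuous (dX X χ) := by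
  rw [continuous_iff_continuousAt]
  intro p
  have h1 : ContinuousOn (fun y => fderiv ℝ (χ ∘ (ch E p).symm) y (cVec X p y))
      (ch E p).target :=
    ((contDiffOn_imm (E := E) hχ (p := p)).continuousOn_fderiv_of_isOpen
      (isOpen_extChartAt_target p) (by simp)).clm_apply (hX p).continuousOn
  have h2 : ContinuousAt (fun x => fderiv ℝ (χ ∘ (ch E p).symm) (ch E p x)
      (cVec X p (ch E p x))) p :=
    ContinuousAt.comp (g := fun y => fderiv ℝ (χ ∘ (ch E p).symm) y (cVec X p y))
      (h1.continuousAt (extChartAt_target_mem_nhds p)) (continuousAt_extChartAt p)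
  refine h2.congr ?_
  filter_upwards [extChartAt_source_mem_nhds (I := 𝓘(ℝ, E)) p] with x hx
  rw [← dX_symm hχ ((ch E p).map_source hx), (ch E p).left_inv hx]

lemma tsupport_dX (X : M → E) (χ : M → ℝ) : tsupport (dX X χ) ⊆ tsupport χ := by
  refine closure_minimal ?_ (isClosed_tsupport χ)
  intro x hx
  by_contra h
  apply hx
  have h1 : χ =ᶠ[𝓝 x] fun _ => 0 := notMem_tsupport_iff_eventuallyEq.1 h
  have h2 : D (E := E) (E' := ℝ) χ x = 0 := by
    rw [D_congr h1]
    exact mfderiv_const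
  unfold dX
  rw [h2]
  rfl

lemma sum_dX {κ : Type*} [Fintype κ] {X : M → E} {χ : κ → M → ℝ}
    (hχ : ∀ i, ContMDiff 𝓘(ℝ, E) 𝓘(ℝ, ℝ) ∞ (χ i)) (h1 : ∀ x, ∑ i, χ i x = 1) (x : M) :
    ∑ i, dX X (χ i) x = 0 := by
  have hy : ch E x x ∈ (ch E x).target := mem_extChartAt_target x
  have h2 : ∀ i, dX X (χ i) x =
      fderiv ℝ (χ i ∘ (ch E x).symm) (ch E x x) (cVec X x (ch E x x)) := by
    intro i
    rw [← dX_symm (hχ i) hy, (ch E x).left_inv (mem_extChartAt_source x)]
  simp_rw [h2]
  have h3 : ∀ i, DifferentiableAt ℝ (χ i ∘ (ch E x).symm) (ch E x x) := fun i =>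
    ((contDiffOn_imm (E := E) (hχ i) (p := x)).contDiffAt
      (extChartAt_target_mem_nhds x)).differentiableAt (by simp)
  have h4 : ∑ i, fderiv ℝ (χ i ∘ (ch E x).symm) (ch E x x) =
      fderiv ℝ (fun y => ∑ i, (χ i ∘ (ch E x).symm) y) (ch E x x) :=
    (fderiv_fun_sum fun i _ => h3 i).symm
  have h5 : (fun y => ∑ i, (χ i ∘ (ch E x).symm) y) = fun _ => (1 : ℝ) := by
    funext y
    exact h1 _
  rw [← sum_apply, h4, h5]
  simp

/-- the divergence theorem -/
theorem sum_int_div (hs : SmoothBil B)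
    (hB : ∀ x u, (∀ v, bev (B x) u v = 0) → u = 0)
    {t : Finset M} {χ : t → M → ℝ} (hχ : ∀ i, ContMDiff 𝓘(ℝ, E) 𝓘(ℝ, ℝ) ∞ (χ i))
    (h1 : ∀ x, ∑ i, χ i x = 1) (hsupp : ∀ i : t, tsupport (χ i) ⊆ (ch E (i : M)).source)
    {X : M → E} (hX : ∀ p : M, ContDiffOn ℝ 1 (cVec X p) (ch E p).target) :
    ∑ i : t, ∫ y in (ch E (i : M)).target, χ i ((ch E (i : M)).symm y) *
      divE (fun y => dens b (cBil B (i : M) y) • cVec X i y) y ∂μ = 0 := by
  have hA : ∀ i : t, ∫ y in (ch E (i : M)).target, χ i ((ch E (i : M)).symm y) *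
      divE (fun y => dens b (cBil B (i : M) y) • cVec X i y) y ∂μ =
      - J b μ B (i : M) (dX X (χ i)) := by
    intro i
    have hV : ContDiffOn ℝ 1 (fun y => dens b (cBil B (i : M) y) • cVec X i y)
        (ch E (i : M)).target :=
      ((contDiffOn_rho b hs hB (p := (i : M))).of_le (by simp)).smul (hX i)
    have h2 := ibp μ b (isOpen_extChartAt_target (I := 𝓘(ℝ, E)) (i : M))
      (isCompact_KK (hsupp i)) (KK_subset (hsupp i)) (χ := χ i ∘ (ch E (i : M)).symm)
      ((contDiffOn_imm (E := E) (hχ i)).of_le (by simp))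
      (fun y hy hyK => KK_off hy hyK) hV
    refine h2.trans ?_
    congr 1
    unfold J
    refine setIntegral_congr_fun (isOpen_extChartAt_target (i : M)).measurableSet fun y hy => ?_
    show fderiv ℝ (χ i ∘ (ch E (i : M)).symm) y (dens b (cBil B (i : M) y) • cVec X i y) =
      dX X (χ i) ((ch E (i : M)).symm y) * rho b B i y
    rw [dX_symm (hχ i) hy, map_smul, smul_eq_mul, mul_comm]
    rfl
  simp_rw [hA]
  rw [Finset.sum_neg_distrib, neg_eq_zero]
  have hadm : ∀ i : t, Adm E (i : M) (χ i) := fun i => ⟨(hχ i).continuous, hsupp i⟩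
  have hc : ∀ i, Continuous (dX X (χ i)) := fun i => continuous_dX hX (hχ i)
  have hadm' : ∀ i : t, Adm E (i : M) (dX X (χ i)) := fun i =>
    ⟨hc i, (tsupport_dX X (χ i)).trans (hsupp i)⟩
  have hBs : ∀ i : t, J b μ B (i : M) (dX X (χ i)) =
      ∑ j : t, J b μ B (j : M) (fun x => χ j x * dX X (χ i) x) := by
    intro i
    have h2 : dX X (χ i) = fun x => ∑ j : t, χ j x * dX X (χ i) x := by
      funext x
      rw [← Finset.sum_mul, h1, one_mul]
    conv_lhs => rw [h2]
    rw [J_sum b μ hs hB _ fun j _ => (hadm' i).mul_left (hχ j).continuous]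
    refine Finset.sum_congr rfl fun j _ => ?_
    refine J_change_id b μ _ fun x hx => ⟨?_, ?_⟩
    · exact hsupp j (subset_tsupport _ (left_ne_zero_of_mul hx))
    · exact (hadm' i).supp (subset_tsupport _ (right_ne_zero_of_mul hx))
  simp_rw [hBs]
  rw [Finset.sum_comm]
  refine Finset.sum_eq_zero fun j _ => ?_
  rw [← J_sum b μ hs hB _ fun i _ => (hadm j).mul_right (hc i)]
  have h2 : (fun x => ∑ i : t, χ j x * dX X (χ i) x) = fun _ => 0 := by
    funext x
    rw [← Finset.mul_sum, sum_dX hχ h1, mul_zero]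
  rw [h2]
  simp [J]

/-- the functional -/
def II (hs : SmoothBil B) (hB : ∀ x u, (∀ v, bev (B x) u v = 0) → u = 0)
    {t : Finset M} {χ : t → M → ℝ} (hχ : ∀ i : t, Adm E (i : M) (χ i)) : C(M, ℝ) →ₗ[ℝ] ℝ where
  toFun f := ∑ i : t, J b μ B (i : M) (fun x => χ i x * f x)
  map_add' f g := by
    rw [← Finset.sum_add_distrib]
    refine Finset.sum_congr rfl fun i _ => ?_
    unfold J
    rw [← integral_add (integ b μ hs hB ((hχ i).mul_right f.continuous))
      (integ b μ hs hB ((hχ i).mul_right g.continuous))]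
    congr 1
    funext y
    simp only [ContinuousMap.add_apply]
    ring
  map_smul' c f := by
    rw [RingHom.id_apply, smul_eq_mul, Finset.mul_sum]
    refine Finset.sum_congr rfl fun i _ => ?_
    unfold J
    rw [← integral_const_mul]
    congr 1
    funext y
    simp only [ContinuousMap.smul_apply, smul_eq_mul]
    ring

lemma II_apply (hs : SmoothBil B) (hB : ∀ x u, (∀ v, bev (B x) u v = 0) → u = 0)
    {t : Finset M} {χ : t → M → ℝ} (hχ : ∀ i : t, Adm E (i : M) (χ i)) (f : C(M, ℝ)) :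
    II b μ hs hB hχ f = ∑ i : t, J b μ B (i : M) (fun x => χ i x * f x) := rfl

theorem II_pos (hs : SmoothBil B) (hB : ∀ x u, (∀ v, bev (B x) u v = 0) → u = 0)
    {t : Finset M} {χ : t → M → ℝ} (hχ : ∀ i : t, Adm E (i : M) (χ i)) (h0 : ∀ i x, 0 ≤ χ i x)
    (h1 : ∀ x, ∑ i, χ i x = 1) (f : C(M, ℝ)) (hf : ∀ x, 0 ≤ f x) (hx : ∃ x, f x ≠ 0) :
    0 < II b μ hs hB hχ f := by
  obtain ⟨x, hx⟩ := hx
  obtain ⟨i, hi⟩ : ∃ i, χ i x ≠ 0 := by
    by_contra hne
    push Not at hne
    have := h1 x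
    simp [hne] at this
  have hnn : ∀ (j : t) (y : E), y ∈ (ch E (j : M)).target →
      0 ≤ (χ j ((ch E (j : M)).symm y) * f ((ch E (j : M)).symm y)) * rho b B j y :=
    fun j y hy => mul_nonneg (mul_nonneg (h0 _ _) (hf _)) (rho_pos b hB hy).le
  have hJ0 : ∀ j : t, 0 ≤ J b μ B (j : M) (fun x => χ j x * f x) := fun j =>
    setIntegral_nonneg (isOpen_extChartAt_target (j : M)).measurableSet (hnn j)
  rw [II_apply]
  refine Finset.sum_pos' (fun j _ => hJ0 j) ⟨i, Finset.mem_univ i, ?_⟩
  have hU := isOpen_extChartAt_target (I := 𝓘(ℝ, E)) (i : M)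
  have hint := integ b μ hs hB ((hχ i).mul_right f.continuous)
  unfold J
  rw [setIntegral_pos_iff_support_of_nonneg_ae
    ((ae_restrict_mem hU.measurableSet).mono fun y hy => hnn i y hy) hint]
  have hcont : ContinuousOn (fun y => (χ i ((ch E (i : M)).symm y) *
      f ((ch E (i : M)).symm y)) * rho b B i y) (ch E (i : M)).target :=
    (((hχ i).mul_right f.continuous).cont.comp_continuousOn (continuousOn_symm (i : M))).mul
      (contDiffOn_rho b hs hB).continuousOn
  have hO : IsOpen ((ch E (i : M)).target ∩ (fun y => (χ i ((ch E (i : M)).symm y) *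
      f ((ch E (i : M)).symm y)) * rho b B i y) ⁻¹' {0}ᶜ) :=
    hcont.isOpen_inter_preimage hU isOpen_compl_singleton
  have hxs : x ∈ (ch E (i : M)).source := (hχ i).supp (subset_tsupport _ hi)
  rw [inter_comm]
  refine hO.measure_pos μ ⟨ch E (i : M) x, (ch E (i : M)).map_source hxs, ?_⟩
  show (χ i ((ch E (i : M)).symm (ch E (i : M) x)) *
      f ((ch E (i : M)).symm (ch E (i : M) x))) * rho b B i (ch E (i : M) x) ≠ 0
  rw [(ch E (i : M)).left_inv hxs]
  exact mul_ne_zero (mul_ne_zero hi hx)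
    (rho_pos b hB ((ch E (i : M)).map_source hxs)).ne'

theorem II_inv (hs : SmoothBil B) (hB : ∀ x u, (∀ v, bev (B x) u v = 0) → u = 0)
    {t : Finset M} {χ : t → M → ℝ} (hχ : ∀ i : t, Adm E (i : M) (χ i))
    (h1 : ∀ x, ∑ i, χ i x = 1) (F : C(M, M)) (hF : ContMDiff 𝓘(ℝ, E) 𝓘(ℝ, E) ∞ F)
    (hbij : Function.Bijective F)
    (hinv : ∀ x u v, bev (B (F x)) (D (E := E) (E' := E) F x u) (D (E := E) (E' := E) F x v) =
          bev (B x) u v) (f : C(M, ℝ)) :
    II b μ hs hB hχ (f.comp F) = II b μ hs hB hχ f := by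
  have hcF : Continuous (Equiv.ofBijective F hbij) := F.continuous
  set e : M ≃ₜ M := hcF.homeoOfEquivCompactToT2 with he
  have heF : ∀ x, e x = F x := fun x => rfl
  have hGc : Continuous e.symm := e.symm.continuous
  have hFG : ∀ x, F (e.symm x) = x := fun x => by rw [← heF, e.apply_symm_apply]
  have hGF : ∀ x, e.symm (F x) = x := fun x => by rw [← heF, e.symm_apply_apply]
  rw [II_apply, II_apply]
  have hA : ∀ i : t, J b μ B (i : M) (fun x => χ i x * (f.comp F) x) =
      ∑ j : t, J b μ B (j : M) (fun x => (χ j x * f x) * χ i (e.symm x)) := by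
    intro i
    have h2 : (fun x => χ i x * (f.comp F) x) =
        fun x => ∑ j : t, χ i x * (χ j (F x) * f (F x)) := by
      funext x
      rw [← Finset.mul_sum, ← Finset.sum_mul, h1, one_mul]
      rfl
    rw [h2, J_sum b μ hs hB (φ := fun j x => χ i x * (χ j (F x) * f (F x))) _
      fun j _ => (hχ i).mul_right
      (((hχ j).cont.comp F.continuous).mul (f.continuous.comp F.continuous))]
    refine Finset.sum_congr rfl fun j _ => ?_
    have h3 := J_change b μ (B := B) (p := (i : M)) (q := (j : M)) hF hbij.1 hinv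
      (fun x => (χ j x * f x) * χ i (e.symm x)) (fun x hx => ⟨?_, ?_⟩)
    · rw [← h3]
      congr 1
      funext x
      rw [hGF]
      ring
    · exact (hχ j).supp (subset_tsupport _ (left_ne_zero_of_mul (left_ne_zero_of_mul hx)))
    · exact ⟨e.symm x, (hχ i).supp (subset_tsupport _ (right_ne_zero_of_mul hx)), hFG x⟩
  simp_rw [hA]
  rw [Finset.sum_comm]
  refine Finset.sum_congr rfl fun j _ => ?_
  rw [← J_sum b μ hs hB (φ := fun i x => (χ j x * f x) * χ i (e.symm x)) _
    fun i _ => ((hχ j).mul_right f.continuous).mul_right ((hχ i).cont.comp hGc)]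
  congr 1
  funext x
  rw [← Finset.mul_sum, h1, mul_one]

end dv

/-- **The divergence theorem on a closed manifold.** -/
theorem dv : S_DV.{u, v} := by
  intro E _ _ _ M _ _ _ _ _ ι _ _ b B hs hB
  let _ : MeasurableSpace E := borel E
  have _ : BorelSpace E := ⟨rfl⟩
  let μ : Measure E := Measure.addHaar
  obtain ⟨t, χ, hχ, h0, h1, hsupp⟩ := partition (E := E) (M := M)
  have hadm : ∀ i : t, Adm E (i : M) (χ i) := fun i => ⟨(hχ i).continuous, hsupp i⟩
  refine ⟨II b μ hs hB hadm, II_pos b μ hs hB hadm h0 h1, fun F hF hbij hinv f =>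
    II_inv b μ hs hB hadm h1 F hF hbij hinv f, fun Y hY => ?_⟩
  refine ⟨∑ i : t, ∫ y in (ch E (i : M)).target, χ i ((ch E (i : M)).symm y) *
    |divE (fun y => dens b (cBil B (i : M) y) • cVec Y i y) y| ∂μ, ?_, ?_⟩
  · exact Finset.sum_nonneg fun i _ => setIntegral_nonneg
      (isOpen_extChartAt_target (i : M)).measurableSet
      fun y _ => mul_nonneg (h0 _ _) (abs_nonneg _)
  intro X hX f ε hε hd
  have hVX : ∀ i : t, ContDiffOn ℝ 1 (fun y => dens b (cBil B (i : M) y) • cVec X i y)
      (ch E (i : M)).target := fun i =>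
    ((contDiffOn_rho b hs hB (p := (i : M))).of_le (by simp)).smul (hX i)
  have hVY : ∀ i : t, ContDiffOn ℝ 1 (fun y => dens b (cBil B (i : M) y) • cVec Y i y)
      (ch E (i : M)).target := fun i =>
    ((contDiffOn_rho b hs hB (p := (i : M))).of_le (by simp)).smul ((hY i).of_le (by simp))
  have hz := sum_int_div b μ hs hB hχ h1 hsupp hX
  have hiX : ∀ i : t, IntegrableOn (fun y => χ i ((ch E (i : M)).symm y) *
      divE (fun y => dens b (cBil B (i : M) y) • cVec X i y) y) (ch E (i : M)).target μ := by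
    intro i
    refine integrableOn_of_compact μ (isOpen_extChartAt_target (i : M)) ?_
      (isCompact_KK (hsupp i)) (KK_subset (hsupp i)) fun y hy hyK => by
        rw [KK_off hy hyK, zero_mul]
    exact ((hadm i).cont.comp_continuousOn (continuousOn_symm (i : M))).mul
      (continuousOn_divE b (isOpen_extChartAt_target (i : M)) (hVX i))
  have hiY : ∀ i : t, IntegrableOn (fun y => χ i ((ch E (i : M)).symm y) *
      |divE (fun y => dens b (cBil B (i : M) y) • cVec Y i y) y|) (ch E (i : M)).target μ := by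
    intro i
    refine integrableOn_of_compact μ (isOpen_extChartAt_target (i : M)) ?_
      (isCompact_KK (hsupp i)) (KK_subset (hsupp i)) fun y hy hyK => by
        rw [KK_off hy hyK, zero_mul]
    exact ((hadm i).cont.comp_continuousOn (continuousOn_symm (i : M))).mul
      (continuousOn_divE b (isOpen_extChartAt_target (i : M)) (hVY i)).abs
  have e1 : II b μ hs hB hadm f = ∑ i : t, ∫ y in (ch E (i : M)).target,
      (χ i ((ch E (i : M)).symm y) * f ((ch E (i : M)).symm y) * rho b B i y -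
        χ i ((ch E (i : M)).symm y) *
          divE (fun y => dens b (cBil B (i : M) y) • cVec X i y) y) ∂μ := by
    have h2 : ∀ i : t, ∫ y in (ch E (i : M)).target,
      (χ i ((ch E (i : M)).symm y) * f ((ch E (i : M)).symm y) * rho b B i y -
        χ i ((ch E (i : M)).symm y) *
          divE (fun y => dens b (cBil B (i : M) y) • cVec X i y) y) ∂μ =
        J b μ B (i : M) (fun x => χ i x * f x) -
        ∫ y in (ch E (i : M)).target, χ i ((ch E (i : M)).symm y) *
          divE (fun y => dens b (cBil B (i : M) y) • cVec X i y) y ∂μ := fun i =>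
      integral_sub (integ b μ hs hB ((hadm i).mul_right f.continuous)) (hiX i)
    simp_rw [h2]
    rw [Finset.sum_sub_distrib, hz, sub_zero]
    rfl
  rw [e1]
  refine (Finset.abs_sum_le_sum_abs _ _).trans ?_
  rw [Finset.sum_mul]
  refine Finset.sum_le_sum fun i _ => ?_
  rw [← Real.norm_eq_abs]
  refine (norm_integral_le_integral_norm _).trans ?_
  rw [← integral_mul_const]
  refine setIntegral_mono_on ?_ ((hiY i).mul_const ε)
    (isOpen_extChartAt_target (i : M)).measurableSet fun y hy => ?_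
  · exact ((integ b μ hs hB ((hadm i).mul_right f.continuous)).sub (hiX i)).norm
  · have h3 := hd (i : M) y hy
    have h4 : χ i ((ch E (i : M)).symm y) * f ((ch E (i : M)).symm y) * rho b B i y -
        χ i ((ch E (i : M)).symm y) *
          divE (fun y => dens b (cBil B (i : M) y) • cVec X i y) y =
        - (χ i ((ch E (i : M)).symm y) *
          (divE (fun y => dens b (cBil B (i : M) y) • cVec X i y) y -
            dens b (cBil B (i : M) y) * f ((ch E (i : M)).symm y))) := by
      unfold rho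
      ring
    rw [h4, norm_neg, Real.norm_eq_abs, abs_mul, abs_of_nonneg (h0 _ _)]
    calc χ i ((ch E (i : M)).symm y) *
        |divE (fun y => dens b (cBil B (i : M) y) • cVec X i y) y -
            dens b (cBil B (i : M) y) * f ((ch E (i : M)).symm y)|
        ≤ χ i ((ch E (i : M)).symm y) *
          (ε * |divE (fun y => dens b (cBil B (i : M) y) • cVec Y i y) y|) :=
          mul_le_mul_of_nonneg_left h3 (h0 _ _)
      _ = _ := by ring

end Pool.Agent.H15.LR
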