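import Mathlib
import Pool.Agent.H75.LR.Stm

/-! Pointwise linear algebra of Lorentzian forms. -/

open scoped Topology ContDiff
open Pool.Agent.H75.LR

noncomputable section

set_option maxSynthPendingDepth 3
set_option linter.unusedSectionVars false

namespace Pool.Agent.H15.LR

universe u

section

variable {E : Type*} [NormedAddCommGroup E] [NormedSpace ℝ E] {g w : E →L[ℝ] E →L[ℝ] ℝ}

/-- `g` is Lorentzian -/
def Lor (g : E →L[ℝ] E →L[ℝ] ℝ) : Prop := ∃ e, g e e < 0 ∧ ∀ u, u ≠ 0 → g u e = 0 → 0 < g u u

/-- the orthogonal complement of a timelike vector is positive definite -/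
lemma pos_of_orth (hs : ∀ u v, g u v = g v u) (hL : Lor g) {n : E} (hn : g n n < 0) {u : E}
    (hu : u ≠ 0) (hun : g u n = 0) : 0 < g u u := by
  obtain ⟨e, he, hpos⟩ := hL
  by_contra hneg
  push Not at hneg
  by_cases h0 : g n e = 0
  · have h1 : n ≠ 0 := by
      rintro rfl
      simp at hn
    exact absurd (hpos n h1 h0) (not_lt.2 hn.le)
  · set z : E := g n e • u - g u e • n with hz
    have h2 : g z e = 0 := by
      rw [hz, map_sub, map_smul, map_smul]
      simp only [sub_apply, FunLike.coe_smul, Pi.smul_apply, smul_eq_mul]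
      ring
    have h3 : z ≠ 0 := by
      intro hz0
      have h4 : g z n = 0 := by rw [hz0, map_zero]; rfl
      have h5 : g z n = - (g u e * g n n) := by
        rw [hz, map_sub, map_smul, map_smul]
        simp only [sub_apply, FunLike.coe_smul, Pi.smul_apply, smul_eq_mul]
        rw [hun]
        ring
      rw [h4] at h5
      have h6 : g u e = 0 := by
        rcases mul_eq_zero.1 (neg_eq_zero.1 h5.symm) with h | h
        · exact h
        · exact absurd h hn.ne
      rw [h6, zero_smul, sub_zero] at hz
      rw [hz] at hz0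
      rcases smul_eq_zero.1 hz0 with h | h
      · exact h0 h
      · exact hu h
    have h7 := hpos z h3 h2
    have h8 : g z z = g n e ^ 2 * g u u + g u e ^ 2 * g n n := by
      rw [hz]
      simp only [map_sub, map_smul, sub_apply, FunLike.coe_smul, Pi.smul_apply, smul_eq_mul]
      rw [hun, hs n u, hun]
      ring
    rw [h8] at h7
    nlinarith [mul_nonneg (sq_nonneg (g n e)) (neg_nonneg.2 hneg),
      mul_nonneg (sq_nonneg (g u e)) (neg_nonneg.2 hn.le)]

/-- the orthogonal complement of a null plane is positive definite -/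
lemma pos_of_null (hs : ∀ u v, g u v = g v u) (hL : Lor g) {s t : E} (hss : g s s = 0)
    (htt : g t t = 0) (hst : g s t = 1) {u : E} (hu : u ≠ 0) (h1 : g u s = 0) (h2 : g u t = 0) :
    0 < g u u := by
  have hn : g (s - t) (s - t) < 0 := by
    simp only [map_sub, sub_apply]
    rw [hss, htt, hs t s, hst]
    norm_num
  refine pos_of_orth hs hL hn hu ?_
  rw [map_sub, h1, h2, sub_zero]

lemma null_of_eig (hw : ∀ u v, w u v = - w v u) {s : E} {c : ℝ} (hc : c ≠ 0)
    (h : ∀ v, w s v = c * g s v) : g s s = 0 := by
  have h1 : w s s = 0 := by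
    have := hw s s
    linarith
  have h2 := h s
  rw [h1] at h2
  rcases mul_eq_zero.1 h2.symm with h3 | h3
  · exact absurd h3 hc
  · exact h3

/-- two orthogonal null vectors are proportional -/
lemma null_orth (hs : ∀ u v, g u v = g v u) (hL : Lor g) {s t : E} (hs0 : s ≠ 0)
    (hss : g s s = 0) (htt : g t t = 0) (hst : g s t = 0) : ∃ c : ℝ, t = c • s := by
  obtain ⟨e, he, hpos⟩ := hL
  have h0 : g s e ≠ 0 := by
    intro h
    exact absurd (hpos s hs0 h) (by rw [hss]; exact lt_irrefl 0)
  refine ⟨g t e / g s e, ?_⟩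
  by_contra hne
  have h1 : t - (g t e / g s e) • s ≠ 0 := sub_ne_zero.2 hne
  have h2 := hpos _ h1 (by
    rw [map_sub, map_smul]
    simp only [sub_apply, FunLike.coe_smul, Pi.smul_apply, smul_eq_mul]
    field_simp
    ring)
  simp only [map_sub, map_smul, sub_apply, FunLike.coe_smul, Pi.smul_apply, smul_eq_mul] at h2
  rw [hss, htt, hst, hs t s, hst] at h2
  simp at h2

end

/-- module U -/
theorem uu : S_U.{u} := by
  intro E _ _ _ g w hs hL hw s t lam hlam hse hte hst
  have hss : g s s = 0 := null_of_eig hw hlam.ne' hse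
  have htt : g t t = 0 := null_of_eig hw (c := -lam) (by linarith) fun v => by rw [hte v]; ring
  refine ⟨hss, htt, fun u hu h1 h2 => pos_of_null hs hL hss htt hst hu h1 h2, ?_⟩
  intro u mu hu hmu hue
  have huu : g u u = 0 := null_of_eig hw hmu hue
  have h1 : (mu + lam) * g u s = 0 := by
    have e1 := hue s
    have e2 := hw u s
    rw [hse u, hs s u] at e2
    linarith
  have h2 : (mu - lam) * g u t = 0 := by
    have e1 := hue t
    have e2 := hw u t
    rw [hte u, hs t u] at e2
    linarith
  set c : E := u - g u t • s - g u s • t with hc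
  have hcs : g c s = 0 := by
    rw [hc]
    simp only [map_sub, map_smul, sub_apply, FunLike.coe_smul, Pi.smul_apply, smul_eq_mul]
    rw [hss, hs t s, hst]
    ring
  have hct : g c t = 0 := by
    rw [hc]
    simp only [map_sub, map_smul, sub_apply, FunLike.coe_smul, Pi.smul_apply, smul_eq_mul]
    rw [htt, hst]
    ring
  have hcc : g c c = - 2 * (g u t * g u s) := by
    rw [hc]
    simp only [map_sub, map_smul, sub_apply, FunLike.coe_smul, Pi.smul_apply, smul_eq_mul]
    rw [hss, htt, hst, huu, hs t s, hst, hs s u, hs t u]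
    ring
  have hc0 : g u t * g u s = 0 → c = 0 := by
    intro h
    by_contra hne
    have := pos_of_null hs hL hss htt hst hne hcs hct
    rw [hcc, h] at this
    simp at this
  by_cases hm : mu = lam
  · left
    refine ⟨hm, ?_⟩
    have h3 : g u s = 0 := by
      rcases mul_eq_zero.1 h1 with h | h
      · exfalso
        rw [hm] at h
        linarith
      · exact h
    have h4 := hc0 (by rw [h3, mul_zero])
    rw [hc, h3, zero_smul, sub_zero, sub_eq_zero] at h4
    exact h4
  · have h3 : g u t = 0 := by
      rcases mul_eq_zero.1 h2 with h | h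
      · exact absurd (sub_eq_zero.1 h) hm
      · exact h
    have h4 := hc0 (by rw [h3, zero_mul])
    rw [hc, h3, zero_smul, sub_zero, sub_eq_zero] at h4
    right
    refine ⟨?_, h4⟩
    have h5 : g u s ≠ 0 := by
      intro h
      rw [h, zero_smul] at h4
      exact hu h4
    rcases mul_eq_zero.1 h1 with h | h
    · linarith
    · exact absurd h h5

end Pool.Agent.H15.LR
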