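import Mathlib
import Pool.Agent.H15.LR.UU

/-! A skew form on a Lorentzian vector space has a positive eigenvalue. -/

open scoped Topology ContDiff
open Pool.Agent.H75.LR

noncomputable section

set_option maxSynthPendingDepth 3
set_option linter.unusedSectionVars false

namespace Pool.Agent.H15.LR

variable {E : Type*} [NormedAddCommGroup E] [NormedSpace ℝ E]
  {ι : Type*} [Fintype ι] [DecidableEq ι] (b : Module.Basis ι ℝ E)

/-- the determinant of the Gram matrix -/
def gd (Q : E →L[ℝ] E →L[ℝ] ℝ) : ℝ := (Matrix.of fun i j => Q (b i) (b j)).det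

lemma gd_comp {Q Q' : E →L[ℝ] E →L[ℝ] ℝ} {L : E →ₗ[ℝ] E} (h : ∀ u v, Q' u v = Q (L u) v) :
    gd b Q' = LinearMap.det L * gd b Q := by
  set A : Matrix ι ι ℝ := LinearMap.toMatrix b b L with hA
  have h1 : ∀ i, L (b i) = ∑ k, A k i • b k := by
    intro i
    have h2 := b.sum_repr (L (b i))
    rw [← h2]
    refine Finset.sum_congr rfl fun k _ => ?_
    rw [hA, LinearMap.toMatrix_apply]
  have h3 : (Matrix.of fun i j => Q' (b i) (b j)) =
      A.transpose * (Matrix.of fun i j => Q (b i) (b j)) := by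
    ext i j
    rw [Matrix.of_apply, h, h1 i]
    simp only [map_sum, map_smul, sum_apply, FunLike.coe_smul, Pi.smul_apply,
      smul_eq_mul, Matrix.mul_apply, Matrix.transpose_apply, Matrix.of_apply]
  unfold gd
  rw [h3, Matrix.det_mul, Matrix.det_transpose, hA, LinearMap.det_toMatrix]

lemma gd_neg {Q Q' : E →L[ℝ] E →L[ℝ] ℝ} (h : ∀ u v, Q' u v = - Q u v) :
    gd b Q' = (-1) ^ Fintype.card ι * gd b Q := by
  unfold gd
  rw [← Matrix.det_neg]
  congr 1
  ext i j
  simp [h]

lemma gd_flip {Q Q' : E →L[ℝ] E →L[ℝ] ℝ} (h : ∀ u v, Q' u v = Q v u) : gd b Q' = gd b Q := by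
  unfold gd
  rw [← Matrix.det_transpose]
  congr 1
  ext i j
  simp [h]

lemma gd_ne_zero {Q : E →L[ℝ] E →L[ℝ] ℝ} (h : ∀ u, (∀ v, Q u v = 0) → u = 0) : gd b Q ≠ 0 := by
  intro h0
  obtain ⟨c, hc, hc2⟩ := Matrix.exists_vecMul_eq_zero_iff.2 h0
  apply hc
  have h1 : Q (∑ i, c i • b i) = 0 := by
    apply ContinuousLinearMap.coe_injective
    apply b.ext
    intro j
    have h2 := congrFun hc2 j
    simp only [Matrix.vecMul, dotProduct, Matrix.of_apply, Pi.zero_apply] at h2
    simpa using h2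
  have h2 := h (∑ i, c i • b i) fun v => by rw [h1]; rfl
  funext i
  exact (Fintype.linearIndependent_iff.1 b.linearIndependent) c h2 i

lemma exists_of_gd {Q : E →L[ℝ] E →L[ℝ] ℝ} (h : gd b Q = 0) : ∃ u, u ≠ 0 ∧ ∀ v, Q u v = 0 := by
  by_contra hne
  push Not at hne
  refine gd_ne_zero b (fun u hu => ?_) h
  by_contra hu0
  obtain ⟨v, hv⟩ := hne u hu0
  exact hv (hu v)

/-- convex combination -/
def cx (Q₀ Q₁ : E →L[ℝ] E →L[ℝ] ℝ) (s : ℝ) : E →L[ℝ] E →L[ℝ] ℝ := (1 - s) • Q₀ + s • Q₁

lemma cx_apply (Q₀ Q₁ : E →L[ℝ] E →L[ℝ] ℝ) (s : ℝ) (u v : E) :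
    cx Q₀ Q₁ s u v = (1 - s) * Q₀ u v + s * Q₁ u v := rfl

lemma continuous_gd_cx (Q₀ Q₁ : E →L[ℝ] E →L[ℝ] ℝ) : Continuous fun s => gd b (cx Q₀ Q₁ s) := by
  unfold gd
  apply Continuous.matrix_det
  refine continuous_pi fun i => continuous_pi fun j => ?_
  simp only [Matrix.of_apply, cx_apply]
  fun_prop

/-- change of sign along a segment -/
lemma exists_zero {Q₀ Q₁ : E →L[ℝ] E →L[ℝ] ℝ} (h0 : 0 < gd b Q₀) (h1 : gd b Q₁ < 0) :
    ∃ s, 0 < s ∧ s < 1 ∧ ∃ u, u ≠ 0 ∧ ∀ v, cx Q₀ Q₁ s u v = 0 := by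
  have e0 : gd b (cx Q₀ Q₁ 0) = gd b Q₀ := by simp [cx]
  have e1 : gd b (cx Q₀ Q₁ 1) = gd b Q₁ := by simp [cx]
  have h2 := intermediate_value_Icc' (zero_le_one (α := ℝ)) (continuous_gd_cx b Q₀ Q₁).continuousOn
  have h3 : (0 : ℝ) ∈ Set.Icc (gd b (cx Q₀ Q₁ 1)) (gd b (cx Q₀ Q₁ 0)) := by
    rw [e0, e1]
    exact ⟨h1.le, h0.le⟩
  obtain ⟨s, hs, hs0⟩ := h2 h3
  refine ⟨s, lt_of_le_of_ne hs.1 ?_, lt_of_le_of_ne hs.2 ?_, exists_of_gd b hs0⟩
  · rintro rfl
    simp only [e0] at hs0
    exact h0.ne' hs0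
  · rintro rfl
    simp only [e1] at hs0
    exact h1.ne hs0

lemma gd_pos_of_path {Q₀ Q₁ : E →L[ℝ] E →L[ℝ] ℝ} (h0 : 0 < gd b Q₀)
    (h : ∀ s, 0 < s → s < 1 → ∀ u, u ≠ 0 → 0 < cx Q₀ Q₁ s u u)
    (h1 : ∀ u, (∀ v, Q₁ u v = 0) → u = 0) : 0 < gd b Q₁ := by
  rcases lt_or_gt_of_ne (gd_ne_zero b h1) with h2 | h2
  · obtain ⟨s, hs, hs1, u, hu, hv⟩ := exists_zero b h0 h2
    have := h s hs hs1 u hu
    rw [hv u] at this
    exact absurd this (lt_irrefl 0)
  · exact h2

/-- the sum of the squares of the coordinates -/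
def del : E →L[ℝ] E →L[ℝ] ℝ :=
  ∑ i, ContinuousLinearMap.smulRight (haveI := b.finiteDimensional_of_finite;
    (b.coord i).toContinuousLinearMap) (haveI := b.finiteDimensional_of_finite;
    (b.coord i).toContinuousLinearMap)

lemma del_apply (u v : E) : del b u v = ∑ i, b.coord i u * b.coord i v := by
  simp [del, sum_apply]

lemma gd_del : gd b (del b) = 1 := by
  unfold gd
  have : (Matrix.of fun i j => del b (b i) (b j)) = 1 := by
    ext i j
    rw [Matrix.of_apply, del_apply]
    simp [Matrix.one_apply, Finsupp.single_apply]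
  rw [this, Matrix.det_one]

lemma del_pos {u : E} (hu : u ≠ 0) : 0 < del b u u := by
  rw [del_apply]
  obtain ⟨i, hi⟩ : ∃ i, b.coord i u ≠ 0 := by
    by_contra hne
    push Not at hne
    apply hu
    apply b.repr.injective
    ext i
    simpa using hne i
  refine Finset.sum_pos' (fun i _ => mul_self_nonneg _) ⟨i, Finset.mem_univ i, ?_⟩
  exact mul_self_pos.2 hi

lemma gd_pos_of_pos {h : E →L[ℝ] E →L[ℝ] ℝ} (hp : ∀ u, u ≠ 0 → 0 < h u u) : 0 < gd b h := by
  refine gd_pos_of_path b (Q₀ := del b) (by rw [gd_del]; exact one_pos) (fun s hs hs1 u hu => ?_)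
    fun u hu => ?_
  · rw [cx_apply]
    have := del_pos b hu
    have := hp u hu
    have : 0 < 1 - s := by linarith
    positivity
  · by_contra hne
    have := hp u hne
    rw [hu u] at this
    exact lt_irrefl 0 this

variable {g w : E →L[ℝ] E →L[ℝ] ℝ}

/-- the positive definite form obtained by changing the sign of a timelike direction -/
def flipF (g : E →L[ℝ] E →L[ℝ] ℝ) (e : E) : E →L[ℝ] E →L[ℝ] ℝ :=
  g - (2 / g e e) • ContinuousLinearMap.smulRight (g e) (g e)

lemma flipF_apply (e u v : E) : flipF g e u v = g u v - 2 / g e e * (g e u * g e v) := by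
  simp [flipF]

lemma flipF_pos (hs : ∀ u v, g u v = g v u) {e : E} (he : g e e < 0)
    (hp : ∀ u, u ≠ 0 → g u e = 0 → 0 < g u u) {u : E} (hu : u ≠ 0) : 0 < flipF g e u u := by
  have hne : g e e ≠ 0 := he.ne
  rw [flipF_apply, hs e u]
  set α : ℝ := g u e / g e e with hα
  set u' : E := u - α • e with hu'
  have h1 : g u' e = 0 := by
    rw [hu', map_sub, map_smul]
    simp only [sub_apply, FunLike.coe_smul, Pi.smul_apply, smul_eq_mul]
    rw [hα]
    field_simp
    ring
  have h2 : g u' u' = g u u - α ^ 2 * g e e := by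
    have h3 : g u' u' = g u' u - α * g u' e := by
      conv_lhs => rw [hu']
      simp only [map_sub, map_smul, sub_apply, FunLike.coe_smul, Pi.smul_apply, smul_eq_mul]
      rw [hu']
      simp only [map_sub, map_smul, sub_apply, FunLike.coe_smul, Pi.smul_apply, smul_eq_mul]
    rw [h3, h1, hu']
    simp only [map_sub, map_smul, sub_apply, FunLike.coe_smul, Pi.smul_apply, smul_eq_mul]
    rw [hs e u, hα]
    field_simp
    ring
  have h4 : 2 / g e e * (g u e * g u e) = 2 * α ^ 2 * g e e := by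
    rw [hα]
    field_simp
  rw [h4]
  by_cases h0 : u' = 0
  · have h5 : α ≠ 0 := by
      intro h
      rw [hu', h, zero_smul, sub_zero] at h0
      exact hu h0
    have h6 : g u' u' = 0 := by rw [h0, map_zero]
    have h7 : 0 < α ^ 2 := by positivity
    rw [h2] at h6
    nlinarith [mul_pos h7 (neg_pos.2 he)]
  · have h6 := hp u' h0 h1
    rw [h2] at h6
    nlinarith [mul_nonneg (sq_nonneg α) (neg_nonneg.2 he.le)]

lemma gd_lor (hs : ∀ u v, g u v = g v u) (hL : Lor g) : gd b g < 0 := by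
  have := b.finiteDimensional_of_finite
  obtain ⟨e, he, hp⟩ := hL
  have hne : g e e ≠ 0 := he.ne
  have h1 := gd_pos_of_pos b (h := flipF g e) fun u hu => flipF_pos hs he hp hu
  have h2 := gd_comp b (Q := g) (Q' := flipF g e)
    (L := LinearMap.transvection ((-(2 / g e e)) • (g e : E →ₗ[ℝ] ℝ)) e) (fun u v => by
      rw [flipF_apply, LinearMap.transvection.apply]
      simp only [map_add, map_smul, add_apply, LinearMap.smul_apply, FunLike.coe_smul,
        Pi.smul_apply, smul_eq_mul, ContinuousLinearMap.coe_coe]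
      ring)
  rw [LinearMap.transvection.det] at h2
  have h3 : (1 : ℝ) + ((-(2 / g e e)) • (g e : E →ₗ[ℝ] ℝ)) e = -1 := by
    simp only [LinearMap.smul_apply, smul_eq_mul, ContinuousLinearMap.coe_coe]
    field_simp
    ring
  rw [h3] at h2
  linarith

/-- existence of a positive eigenvalue -/
theorem exists_eig [FiniteDimensional ℝ E] (hs : ∀ u v, g u v = g v u) (hL : Lor g)
    (hw : ∀ u v, w u v = - w v u) (a : E →L[ℝ] ℝ) (R : E) (haR : a R = 1) (hwR : ∀ v, w R v = 0)
    (hnd : ∀ u, a u = 0 → (∀ v, a v = 0 → w u v = 0) → u = 0) (hgR : ∀ u, g R u = a u) :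
    ∃ (lam : ℝ) (u : E), 0 < lam ∧ u ≠ 0 ∧ ∀ v, w u v = lam * g u v := by
  classical
  set b := Module.finBasis ℝ E with hb
  set aa : E →L[ℝ] E →L[ℝ] ℝ := ContinuousLinearMap.smulRight a a with haa
  have haa1 : ∀ u v, aa u v = a u * a v := fun u v => by simp [haa]
  have hwR' : ∀ u, w u R = 0 := fun u => by rw [hw, hwR, neg_zero]
  have hBnd : ∀ u, (∀ v, (w + aa) u v = 0) → u = 0 := by
    intro u hu
    have h1 : a u = 0 := by
      have := hu R
      rw [add_apply, add_apply, haa1, hwR', haR] at this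
      simpa using this
    refine hnd u h1 fun v _ => ?_
    have := hu v
    rw [add_apply, add_apply, haa1, h1] at this
    simpa using this
  -- the determinant of `w + a ⊗ a` is positive
  have hB : 0 < gd b (w + aa) := by
    refine gd_pos_of_path b (Q₀ := del b) (by rw [gd_del]; exact one_pos)
      (fun s hs0 hs1 u hu => ?_) hBnd
    rw [cx_apply]
    have h1 := del_pos b hu
    have h2 : w u u = 0 := by
      have := hw u u
      linarith
    rw [add_apply, add_apply, h2, haa1]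
    have h3 : 0 < 1 - s := by linarith
    have h4 : 0 < (1 - s) * del b u u := mul_pos h3 h1
    nlinarith [mul_nonneg hs0.le (mul_self_nonneg (a u))]
  -- the reflection in `R`
  set T : E →ₗ[ℝ] E := LinearMap.transvection ((-2 : ℝ) • (a : E →ₗ[ℝ] ℝ)) R with hT
  have hTa : ∀ u, T u = u - (2 * a u) • R := by
    intro u
    rw [hT, LinearMap.transvection.apply]
    simp only [LinearMap.smul_apply, smul_eq_mul, ContinuousLinearMap.coe_coe]
    rw [sub_eq_add_neg, ← neg_smul]
    congr 2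
    ring
  have hTd : LinearMap.det T = -1 := by
    rw [hT, LinearMap.transvection.det]
    simp only [LinearMap.smul_apply, smul_eq_mul, ContinuousLinearMap.coe_coe]
    rw [haR]
    norm_num
  -- parity
  have hpar : (-1 : ℝ) ^ Fintype.card (Fin (Module.finrank ℝ E)) = -1 := by
    have h1 := gd_flip b (Q := w + aa) (Q' := (w + aa).flip) fun u v => rfl
    have h2 := gd_neg b (Q := (w + aa).flip) (Q' := -(w + aa).flip) fun u v => rfl
    have h3 := gd_comp b (Q := w + aa) (Q' := -(w + aa).flip) (L := T) (fun u v => by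
      rw [hTa]
      simp only [neg_apply, ContinuousLinearMap.flip_apply, map_sub, map_smul, add_apply,
        sub_apply, FunLike.coe_smul, Pi.smul_apply, smul_eq_mul, haa1]
      rw [hwR, haR, hw v u]
      ring)
    rw [h2, h1, hTd] at h3
    exact mul_right_cancel₀ hB.ne' h3
  -- the other end
  have hC : gd b (aa + aa - g) < 0 := by
    have h2 := gd_comp b (Q := g) (Q' := -(aa + aa - g)) (L := T) (fun u v => by
      rw [hTa]
      simp only [neg_apply, map_sub, map_smul, add_apply,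
        sub_apply, FunLike.coe_smul, Pi.smul_apply, smul_eq_mul, haa1]
      rw [hgR]
      ring)
    have h3 := gd_neg b (Q := -(aa + aa - g)) (Q' := aa + aa - g) fun u v => by
      simp only [neg_apply, neg_neg]
    rw [h3, h2, hpar, hTd]
    have := gd_lor b hs hL
    linarith
  obtain ⟨s, hs0, hs1, u, hu, hv⟩ := exists_zero b hB hC
  have hau : a u = 0 := by
    have := hv R
    rw [cx_apply] at this
    simp only [add_apply, sub_apply, haa1] at this
    rw [hwR', haR, hs u R, hgR] at this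
    linarith
  refine ⟨s / (1 - s), u, div_pos hs0 (by linarith), hu, fun v => ?_⟩
  have := hv v
  rw [cx_apply] at this
  simp only [add_apply, sub_apply, haa1, hau] at this
  have h1 : (1 - s) ≠ 0 := by linarith
  field_simp
  linarith

/-- existence of the two eigenvectors -/
theorem exists_pair [FiniteDimensional ℝ E] (hs : ∀ u v, g u v = g v u) (hL : Lor g)
    (hw : ∀ u v, w u v = - w v u) (a : E →L[ℝ] ℝ) (R : E) (haR : a R = 1) (hwR : ∀ v, w R v = 0)
    (hnd : ∀ u, a u = 0 → (∀ v, a v = 0 → w u v = 0) → u = 0) (hgR : ∀ u, g R u = a u) :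
    ∃ (lam : ℝ) (s t : E), 0 < lam ∧ (∀ v, w s v = lam * g s v) ∧
      (∀ v, w t v = - (lam * g t v)) ∧ g s t = 1 := by
  obtain ⟨lam, s, hlam, hs0, hse⟩ := exists_eig hs hL hw a R haR hwR hnd hgR
  obtain ⟨mu, t, hmu, ht0, hte⟩ := exists_eig (g := g) (w := -w) hs hL
    (fun u v => by simp only [neg_apply]; rw [hw u v]) a R haR
    (fun v => by simp only [neg_apply]; rw [hwR, neg_zero])
    (fun u hu h => hnd u hu fun v hv => by simpa using h v hv) hgR
  have hte' : ∀ v, w t v = -(mu * g t v) := by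
    intro v
    have := hte v
    simp only [neg_apply] at this
    linarith
  have hss : g s s = 0 := null_of_eig hw hlam.ne' hse
  have htt : g t t = 0 := null_of_eig hw (c := -mu) (by linarith) fun v => by rw [hte' v]; ring
  have hst : g s t ≠ 0 := by
    intro h0
    obtain ⟨c, hc⟩ := null_orth hs hL hs0 hss htt h0
    have hc0 : c ≠ 0 := by
      rintro rfl
      rw [zero_smul] at hc
      exact ht0 hc
    have h1 : ∀ v, (lam + mu) * g s v = 0 := by
      intro v
      have h2 := hte' v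
      rw [hc] at h2
      simp only [map_smul, FunLike.coe_smul, Pi.smul_apply, smul_eq_mul] at h2
      rw [hse v] at h2
      have h3 : c * ((lam + mu) * g s v) = 0 := by linarith
      exact (mul_eq_zero.1 h3).resolve_left hc0
    obtain ⟨e, he, hpos⟩ := hL
    have h4 : g s e = 0 := (mul_eq_zero.1 (h1 e)).resolve_left (by linarith)
    exact absurd (hpos s hs0 h4) (by rw [hss]; exact lt_irrefl 0)
  have hlm : mu = lam := by
    have h1 := hse t
    have h2 := hte' s
    rw [hs t s] at h2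
    rw [hw s t, h2, neg_neg] at h1
    exact mul_right_cancel₀ hst h1
  refine ⟨lam, s, (g s t)⁻¹ • t, hlam, hse, fun v => ?_, ?_⟩
  · simp only [map_smul, FunLike.coe_smul, Pi.smul_apply, smul_eq_mul]
    rw [hte' v, hlm]
    ring
  · rw [map_smul, smul_eq_mul, inv_mul_cancel₀ hst]

end Pool.Agent.H15.LR
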