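import Mathlib

/-! The implicit function theorem with smoothness on a neighbourhood. -/

open scoped Topology ContDiff
open Set Filter

noncomputable section

namespace Pool.Agent.H15.LR

theorem implicit_smooth {E₁ E₂ F : Type*} [NormedAddCommGroup E₁] [NormedSpace ℝ E₁]
    [CompleteSpace E₁] [NormedAddCommGroup E₂] [NormedSpace ℝ E₂] [CompleteSpace E₂]
    [NormedAddCommGroup F] [NormedSpace ℝ F] [CompleteSpace F] {f : E₁ × E₂ → F}
    {O : Set (E₁ × E₂)} (hO : IsOpen O) (hf : ContDiffOn ℝ ∞ f O) {u : E₁ × E₂} (hu : u ∈ O)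
    (if₂ : (fderiv ℝ f u ∘L .inr ℝ E₁ E₂).IsInvertible) :
    ∃ (V : Set E₁) (ψ : E₁ → E₂), IsOpen V ∧ u.1 ∈ V ∧ ContDiffOn ℝ ∞ ψ V ∧ ψ u.1 = u.2 ∧
      ∀ x ∈ V, (x, ψ x) ∈ O ∧ f (x, ψ x) = f u := by
  have hn : (∞ : ℕ∞ω) ≠ 0 := by simp
  have cdf : ContDiffAt ℝ ∞ f u := hf.contDiffAt (hO.mem_nhds hu)
  set ψ := cdf.implicitFunction hn if₂ with hψ
  have h0 : ψ u.1 = u.2 := cdf.implicitFunction_apply_self hn if₂
  have hsm : ContDiffAt ℝ ∞ ψ u.1 := cdf.contDiffAt_implicitFunction hn if₂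
  -- continuity near the point
  have hcont : ∀ᶠ x in 𝓝 u.1, ContinuousAt ψ x := by
    have h1 : ContDiffAt ℝ 1 ψ u.1 := hsm.of_le (by simp)
    filter_upwards [h1.eventually (by simp)] with x hx using hx.continuousAt
  have hc0 : ContinuousAt (fun x => (x, ψ x)) u.1 := continuousAt_id.prodMk hsm.continuousAt
  have hmem : ∀ᶠ x in 𝓝 u.1, (x, ψ x) ∈ O := by
    apply hc0.preimage_mem_nhds
    rw [h0]
    exact hO.mem_nhds hu
  have heq : ∀ᶠ x in 𝓝 u.1, f (x, ψ x) = f u := cdf.eventually_apply_implicitFunction hn if₂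
  have hinv : ∀ᶠ x in 𝓝 u.1, (fderiv ℝ f (x, ψ x) ∘L .inr ℝ E₁ E₂).IsInvertible := by
    have h1 : ContinuousAt (fun v : E₁ × E₂ => fderiv ℝ f v ∘L .inr ℝ E₁ E₂) u := by
      have h2 : ContinuousAt (fderiv ℝ f) u :=
        (hf.continuousOn_fderiv_of_isOpen hO (by simp)).continuousAt (hO.mem_nhds hu)
      exact h2.clm_comp continuousAt_const
    have h3 : ContinuousAt (fun x => fderiv ℝ f (x, ψ x) ∘L .inr ℝ E₁ E₂) u.1 := by
      have h4 : ContinuousAt (fun v : E₁ × E₂ => fderiv ℝ f v ∘L .inr ℝ E₁ E₂) (u.1, ψ u.1) := by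
        rw [h0]
        exact h1
      exact ContinuousAt.comp (f := fun x => (x, ψ x)) h4 hc0
    have h5 : range ((↑) : (E₂ ≃L[ℝ] F) → E₂ →L[ℝ] F) ∈
        𝓝 (fderiv ℝ f (u.1, ψ u.1) ∘L .inr ℝ E₁ E₂) := by
      rw [h0]
      obtain ⟨e, he⟩ := if₂
      exact ContinuousLinearEquiv.isOpen.mem_nhds ⟨e, he⟩
    filter_upwards [h3.preimage_mem_nhds h5] with x hx
    obtain ⟨e, he⟩ := hx
    exact ⟨e, he⟩
  obtain ⟨V, hV, hVo, huV⟩ := _root_.mem_nhds_iff.1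
    ((hcont.and (hmem.and (heq.and hinv))))
  refine ⟨V, ψ, hVo, huV, fun x hx => ?_, h0, fun x hx => ⟨(hV hx).2.1, (hV hx).2.2.1⟩⟩
  apply ContDiffAt.contDiffWithinAt
  have hvO : (x, ψ x) ∈ O := (hV hx).2.1
  have cdf' : ContDiffAt ℝ ∞ f (x, ψ x) := hf.contDiffAt (hO.mem_nhds hvO)
  have if₂' := (hV hx).2.2.2
  have hsm' : ContDiffAt ℝ ∞ (cdf'.implicitFunction hn if₂') x :=
    cdf'.contDiffAt_implicitFunction hn if₂'
  refine hsm'.congr_of_eventuallyEq ?_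
  have h6 := cdf'.eventually_apply_eq_iff_implicitFunction hn if₂'
  have hc : ContinuousAt (fun x => (x, ψ x)) x := continuousAt_id.prodMk (hV hx).1
  filter_upwards [hc.eventually h6, hVo.mem_nhds hx] with y hy hyV
  have h7 : f (y, ψ y) = f (x, ψ x) := by
    rw [(hV hyV).2.2.1, (hV hx).2.2.1]
  exact (hy.1 h7).symm

end Pool.Agent.H15.LR
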