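import Mathlib
import Pool.Agent.H15.LR.Impl
import Pool.Agent.H15.LR.EigPt

/-! The null eigenlines are smooth. -/

open scoped Topology ContDiff
open Set Filter Pool.Agent.H75.LR

noncomputable section

set_option maxSynthPendingDepth 3
set_option linter.unusedSectionVars false

namespace Pool.Agent.H15.LR

universe u

variable {E : Type*} [NormedAddCommGroup E] [NormedSpace ℝ E] [FiniteDimensional ℝ E]

lemma finrank_clm : Module.finrank ℝ (E →L[ℝ] ℝ) = Module.finrank ℝ E := by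
  rw [← (LinearMap.toContinuousLinearMap (𝕜 := ℝ) (E := E) (F' := ℝ)).finrank_eq]
  exact Subspace.dual_finrank_eq

/-- smoothness of a simple eigenvector of a pair of bilinear forms -/
theorem smooth_eig {U : Set E} (hU : IsOpen U) {g w : E → E →L[ℝ] E →L[ℝ] ℝ}
    (hg : ContDiffOn ℝ ∞ g U) (hw : ContDiffOn ℝ ∞ w U) {z₀ : E} (hz : z₀ ∈ U)
    (l : E →L[ℝ] ℝ) (s₀ : E) (m₀ : ℝ) (he : w z₀ s₀ = m₀ • g z₀ s₀)
    (hinj : ∀ (u : E) (m : ℝ), w z₀ u - (m₀ • g z₀ u + m • g z₀ s₀) = 0 → l u = 0 →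
      u = 0 ∧ m = 0) :
    ∃ (V : Set E) (s : E → E) (m : E → ℝ), IsOpen V ∧ z₀ ∈ V ∧ V ⊆ U ∧ ContDiffOn ℝ ∞ s V ∧
      ContDiffOn ℝ ∞ m V ∧ s z₀ = s₀ ∧ m z₀ = m₀ ∧ ∀ z ∈ V, w z (s z) = m z • g z (s z) := by
  have := FiniteDimensional.complete ℝ E
  have := FiniteDimensional.complete ℝ ((E →L[ℝ] ℝ) × ℝ)
  set f : E × (E × ℝ) → (E →L[ℝ] ℝ) × ℝ := fun p =>
    (w p.1 p.2.1 - p.2.2 • g p.1 p.2.1, l p.2.1) with hf
  set O : Set (E × (E × ℝ)) := Prod.fst ⁻¹' U with hO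
  have hOo : IsOpen O := hU.preimage continuous_fst
  have hfs : ContDiffOn ℝ ∞ f O := by
    have hw1 : ContDiffOn ℝ ∞ (fun p : E × (E × ℝ) => w p.1) O :=
      hw.comp contDiff_fst.contDiffOn fun p hp => hp
    have hg1 : ContDiffOn ℝ ∞ (fun p : E × (E × ℝ) => g p.1) O :=
      hg.comp contDiff_fst.contDiffOn fun p hp => hp
    have h1 : ContDiffOn ℝ ∞ (fun p : E × (E × ℝ) => p.2.1) O :=
      (contDiff_fst.comp contDiff_snd).contDiffOn
    have h2 : ContDiffOn ℝ ∞ (fun p : E × (E × ℝ) => p.2.2) O :=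
      (contDiff_snd.comp contDiff_snd).contDiffOn
    exact ((hw1.clm_apply h1).sub (h2.smul (hg1.clm_apply h1))).prodMk
      (l.contDiff.comp_contDiffOn h1)
  set u₀ : E × (E × ℝ) := (z₀, (s₀, m₀)) with hu₀
  have hu : u₀ ∈ O := hz
  set L : (E × ℝ) →L[ℝ] (E →L[ℝ] ℝ) × ℝ := fderiv ℝ f u₀ ∘L .inr ℝ E (E × ℝ) with hL
  have hLv : ∀ (u' : E) (m' : ℝ), L (u', m') =
      (w z₀ u' - (m₀ • g z₀ u' + m' • g z₀ s₀), l u') := by
    intro u' m'
    have h1 : HasFDerivAt f (fderiv ℝ f u₀) u₀ :=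
      ((hfs.contDiffAt (hOo.mem_nhds hu)).differentiableAt (by simp)).hasFDerivAt
    have h2 : HasFDerivAt (fun y : E × ℝ => ((z₀, y) : E × (E × ℝ)))
        (ContinuousLinearMap.inr ℝ E (E × ℝ)) (s₀, m₀) := hasFDerivAt_prodMk_right z₀ (s₀, m₀)
    have h3 : HasFDerivAt (fun y : E × ℝ => f (z₀, y)) L (s₀, m₀) :=
      HasFDerivAt.comp (s₀, m₀) h1 h2
    have h4 : HasFDerivAt (fun y : E × ℝ => w z₀ y.1)
        ((w z₀).comp (ContinuousLinearMap.fst ℝ E ℝ)) (s₀, m₀) :=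
      (w z₀).hasFDerivAt.comp (s₀, m₀) hasFDerivAt_fst
    have h5 : HasFDerivAt (fun y : E × ℝ => g z₀ y.1)
        ((g z₀).comp (ContinuousLinearMap.fst ℝ E ℝ)) (s₀, m₀) :=
      (g z₀).hasFDerivAt.comp (s₀, m₀) hasFDerivAt_fst
    have h6 : HasFDerivAt (fun y : E × ℝ => y.2) (ContinuousLinearMap.snd ℝ E ℝ) (s₀, m₀) :=
      hasFDerivAt_snd
    have h7 : HasFDerivAt (fun y : E × ℝ => l y.1)
        (l.comp (ContinuousLinearMap.fst ℝ E ℝ)) (s₀, m₀) :=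
      l.hasFDerivAt.comp (s₀, m₀) hasFDerivAt_fst
    have h8 := (h4.sub (h6.smul h5)).prodMk h7
    have h9 := h3.unique h8
    rw [h9]
    simp
  have hLinj : Function.Injective L := by
    rw [injective_iff_map_eq_zero]
    rintro ⟨u', m'⟩ h
    rw [hLv, Prod.mk_eq_zero] at h
    obtain ⟨h1, h2⟩ := hinj u' m' h.1 h.2
    rw [h1, h2]
    rfl
  have hinv : (fderiv ℝ f u₀ ∘L .inr ℝ E (E × ℝ)).IsInvertible := by
    have hfr : Module.finrank ℝ (E × ℝ) = Module.finrank ℝ ((E →L[ℝ] ℝ) × ℝ) := by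
      rw [Module.finrank_prod, Module.finrank_prod, finrank_clm]
    refine ⟨(LinearEquiv.toContinuousLinearEquiv
      (LinearMap.linearEquivOfInjective (L : (E × ℝ) →ₗ[ℝ] (E →L[ℝ] ℝ) × ℝ) hLinj hfr)), ?_⟩
    ext x <;> rfl
  obtain ⟨V, ψ, hV, hzV, hψ, hψ0, hVO⟩ := implicit_smooth hOo hfs hu hinv
  refine ⟨V, fun z => (ψ z).1, fun z => (ψ z).2, hV, hzV, fun z hz => (hVO z hz).1,
    contDiff_fst.comp_contDiffOn hψ, contDiff_snd.comp_contDiffOn hψ, ?_, ?_, fun z hz => ?_⟩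
  · show (ψ u₀.1).1 = s₀
    rw [hψ0]
  · show (ψ u₀.1).2 = m₀
    rw [hψ0]
  · have h1 := (hVO z hz).2
    have h2 := congrArg Prod.fst h1
    simp only [hf, hu₀] at h2
    rw [he, sub_self, sub_eq_zero] at h2
    exact h2

/-- module EL -/
theorem el : S_EL.{u} := by
  intro E _ _ _ U hU a ha R haR hdR hnd g hg hgs hgL hgR _ z₀ hz₀
  set w : E → E →L[ℝ] E →L[ℝ] ℝ := fun z => fderiv ℝ a z - (fderiv ℝ a z).flip with hwdef
  have hwd : ∀ z u v, w z u v = dd a z u v := fun z u v => rfl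
  have hw : ContDiffOn ℝ ∞ w U := by
    have h1 : ContDiffOn ℝ ∞ (fderiv ℝ a) U := ha.fderiv_of_isOpen hU (by simp)
    exact h1.sub ((ContinuousLinearMap.flipₗᵢ ℝ E E ℝ).contDiff.comp_contDiffOn h1)
  have hskew : ∀ z u v, w z u v = - w z v u := by
    intro z u v
    rw [hwd, hwd]
    unfold dd
    ring
  obtain ⟨lam₀, s₀, t₀, hlam₀, hs₀, ht₀, hst₀⟩ := exists_pair (g := g z₀) (w := w z₀)
    (hgs z₀ hz₀) (hgL z₀ hz₀) (hskew z₀) (a z₀) (R z₀) (haR z₀ hz₀)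
    (fun v => by rw [hwd]; exact hdR z₀ hz₀ v)
    (fun u hu h => hnd z₀ hz₀ u hu fun v hv => by rw [← hwd]; exact h v hv) (hgR z₀ hz₀)
  have hU' := uu E (g z₀) (w z₀) (hgs z₀ hz₀) (hgL z₀ hz₀) (hskew z₀) s₀ t₀ lam₀ hlam₀ hs₀ ht₀ hst₀
  obtain ⟨hss, htt, -, huniq⟩ := hU'
  have hts₀ : g z₀ t₀ s₀ = 1 := by rw [hgs z₀ hz₀]; exact hst₀
  -- the first eigenline
  obtain ⟨V₁, s, m₁, hV₁, hz₁, hV₁U, hs, hm₁, hsz, hmz, hse⟩ := smooth_eig hU hg hw hz₀
    ((g z₀).flip t₀) s₀ lam₀ (by ext v; rw [hs₀ v]; rfl) (by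
      intro u m hum hlu
      have h1 : ∀ v, w z₀ u v = lam₀ * g z₀ u v + m * g z₀ s₀ v := by
        intro v
        have := DFunLike.congr_fun hum v
        simp only [sub_apply, add_apply, FunLike.coe_smul, Pi.smul_apply, smul_eq_mul,
          zero_apply] at this
        linarith
      have hlu' : g z₀ u t₀ = 0 := hlu
      have h2 := h1 t₀
      rw [hskew, ht₀, neg_neg, hgs z₀ hz₀ t₀ u, hst₀] at h2
      have hm : m = 0 := by linarith
      refine ⟨?_, hm⟩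
      by_contra hu
      rcases huniq u lam₀ hu hlam₀.ne' (fun v => by rw [h1 v, hm]; ring) with ⟨-, h3⟩ | ⟨h3, -⟩
      · rw [hlu', zero_smul] at h3
        exact hu h3
      · linarith)
  -- the second eigenline
  obtain ⟨V₂, t, m₂, hV₂, hz₂, hV₂U, ht, hm₂, htz, hmz₂, hte⟩ := smooth_eig hU hg hw hz₀
    ((g z₀).flip s₀) t₀ (-lam₀) (by ext v; rw [ht₀ v]; simp) (by
      intro u m hum hlu
      have h1 : ∀ v, w z₀ u v = -lam₀ * g z₀ u v + m * g z₀ t₀ v := by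
        intro v
        have := DFunLike.congr_fun hum v
        simp only [sub_apply, add_apply, FunLike.coe_smul, Pi.smul_apply, smul_eq_mul,
          zero_apply] at this
        linarith
      have hlu' : g z₀ u s₀ = 0 := hlu
      have h2 := h1 s₀
      rw [hskew, hs₀, hgs z₀ hz₀ s₀ u, hts₀] at h2
      have hm : m = 0 := by linarith
      refine ⟨?_, hm⟩
      by_contra hu
      rcases huniq u (-lam₀) hu (by linarith) (fun v => by rw [h1 v, hm]; ring) with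
        ⟨h3, -⟩ | ⟨-, h3⟩
      · linarith
      · rw [hlu', zero_smul] at h3
        exact hu h3)
  -- near the point
  have hc1 : ContinuousAt m₁ z₀ := hm₁.continuousOn.continuousAt (hV₁.mem_nhds hz₁)
  have hc3 : ContinuousAt (fun z => g z (s z) (t z)) z₀ :=
    (((hg.continuousOn.continuousAt (hU.mem_nhds hz₀)).clm_apply
      (hs.continuousOn.continuousAt (hV₁.mem_nhds hz₁))).clm_apply
      (ht.continuousOn.continuousAt (hV₂.mem_nhds hz₂)))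
  have he1 : ∀ᶠ z in 𝓝 z₀, 0 < m₁ z := by
    refine continuousAt_const.eventually_lt hc1 ?_
    rw [hmz]
    exact hlam₀
  have he3 : ∀ᶠ z in 𝓝 z₀, g z (s z) (t z) ≠ 0 := by
    refine hc3.eventually_ne ?_
    rw [hsz, htz, hst₀]
    exact one_ne_zero
  have hm1 : ∀ᶠ z in 𝓝 z₀, z ∈ V₁ := hV₁.mem_nhds hz₁
  have hm2 : ∀ᶠ z in 𝓝 z₀, z ∈ V₂ := hV₂.mem_nhds hz₂
  obtain ⟨V, hV, hVo, hzV⟩ := _root_.mem_nhds_iff.1 (hm1.and (hm2.and (he1.and he3)))
  have hVU : V ⊆ U := fun z hz => hV₁U (hV hz).1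
  have hV1 : V ⊆ V₁ := fun z hz => (hV hz).1
  have hV2 : V ⊆ V₂ := fun z hz => (hV hz).2.1
  have hgst : ContDiffOn ℝ ∞ (fun z => g z (s z) (t z)) V :=
    ((hg.mono hVU).clm_apply (hs.mono hV1)).clm_apply (ht.mono hV2)
  refine ⟨V, s, fun z => (g z (s z) (t z))⁻¹ • t z, m₁, hVo, hzV, hVU, hs.mono hV1,
    (hgst.inv fun z hz => (hV hz).2.2.2).smul (ht.mono hV2), hm₁.mono hV1, fun z hz => ?_⟩
  have hp : 0 < m₁ z := (hV hz).2.2.1
  have hne : g z (s z) (t z) ≠ 0 := (hV hz).2.2.2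
  have e1 : ∀ v, w z (s z) v = m₁ z * g z (s z) v := fun v => by
    rw [hse z (hV1 hz)]
    rfl
  have e2 : ∀ v, w z (t z) v = m₂ z * g z (t z) v := fun v => by
    rw [hte z (hV2 hz)]
    rfl
  have e3 : m₂ z = - m₁ z := by
    have h1 := e1 (t z)
    have h2 := e2 (s z)
    rw [hskew, h1, hgs z (hVU hz) (t z) (s z)] at h2
    have h3 : (m₂ z + m₁ z) * g z (s z) (t z) = 0 := by linarith
    have h4 := (mul_eq_zero.1 h3).resolve_right hne
    linarith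
  refine ⟨hp, fun v => e1 v, fun v => ?_, ?_⟩
  · have h1 : dd a z ((g z (s z) (t z))⁻¹ • t z) v = (g z (s z) (t z))⁻¹ * w z (t z) v := by
      rw [← hwd, map_smul]
      rfl
    rw [h1, e2 v, e3, map_smul]
    simp only [FunLike.coe_smul, Pi.smul_apply, smul_eq_mul]
    ring
  · rw [map_smul, smul_eq_mul, inv_mul_cancel₀ hne]

end Pool.Agent.H15.LR
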