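import Mathlib
import Pool.Agent.H75.LR.Stm2

/-! The growth rate of the length of the image of a vector under the derivative of the flow. -/

open scoped Topology ContDiff Manifold
open Set Filter Pool.Agent.H826R2.WStmt Pool.Agent.W671.RStmt
open Pool.Agent.H75.PRStmt Pool.Agent.H75.PR Pool.Agent.H75.LR

noncomputable section

set_option maxSynthPendingDepth 3
set_option linter.unusedSectionVars false

namespace Pool.Agent.H15.LR

universe u v

/-- module GR -/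
theorem gr : S_GR.{u, v} := by
  intro E _ _ _ M _ _ _ _ _ R Φ hΦ hΦs m e he p z₀ hz₀ s ep hs hep hnear hsmall
  set Ψ : ℝ × E → E := fun q => ch E p (Φ ((ch E p).symm q.2) q.1) with hΨdef
  set W : Set (ℝ × E) := {q | q.2 ∈ (ch E p).target ∧
    Φ ((ch E p).symm q.2) q.1 ∈ (ch E p).source} with hW
  have hΦc : Continuous (fun q : M × ℝ => Φ q.1 q.2) := hΦs.continuous
  have hWo : IsOpen W := by
    have h1 : ContinuousOn (fun q : ℝ × E => Φ ((ch E p).symm q.2) q.1)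
        (Prod.snd ⁻¹' (ch E p).target) :=
      hΦc.comp_continuousOn (((continuousOn_extChartAt_symm p).comp
        continuous_snd.continuousOn fun q hq => hq).prodMk continuous_fst.continuousOn)
    exact h1.isOpen_inter_preimage ((isOpen_extChartAt_target p).preimage continuous_snd)
      (isOpen_extChartAt_source p)
  have hW0 : ∀ z ∈ (ch E p).target, ((0 : ℝ), z) ∈ W := by
    intro z hz
    refine ⟨hz, ?_⟩
    show Φ ((ch E p).symm z) 0 ∈ _
    rw [hΦ.zero]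
    exact (ch E p).map_target hz
  have hΨ : ∀ q ∈ W, ContDiffAt ℝ ∞ Ψ q := by
    intro q hq
    rw [← contMDiffAt_iff_contDiffAt]
    have h1 : ContMDiffAt 𝓘(ℝ, ℝ × E) 𝓘(ℝ, E) ∞ (fun q : ℝ × E => (ch E p).symm q.2) q :=
      ContMDiffAt.comp q ((contMDiffOn_extChartAt_symm (n := ∞) p).contMDiffAt
        ((isOpen_extChartAt_target p).mem_nhds hq.1)) (contDiff_snd.contMDiff q)
    have h2 : ContMDiffAt 𝓘(ℝ, ℝ × E) (𝓘(ℝ, E).prod 𝓘(ℝ, ℝ)) ∞
        (fun q : ℝ × E => ((ch E p).symm q.2, q.1)) q :=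
      h1.prodMk (contDiff_fst.contMDiff q)
    have h3 : ContMDiffAt 𝓘(ℝ, ℝ × E) 𝓘(ℝ, E) ∞
        (fun q : ℝ × E => Φ ((ch E p).symm q.2) q.1) q :=
      ContMDiffAt.comp q (hΦs ((ch E p).symm q.2, q.1)) h2
    have h4 : ContMDiffAt 𝓘(ℝ, E) 𝓘(ℝ, E) ∞ (ch E p) (Φ ((ch E p).symm q.2) q.1) :=
      contMDiffAt_extChartAt' (by simpa only [extChartAt_source] using hq.2)
    exact ContMDiffAt.comp q h4 h3
  -- the derivative in time at time zero
  have hR : ∀ z ∈ (ch E p).target, fderiv ℝ Ψ ((0 : ℝ), z) ((1 : ℝ), (0 : E)) = cVec R p z := by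
    intro z hz
    have h1 : HasFDerivAt Ψ (fderiv ℝ Ψ ((0 : ℝ), z)) ((0 : ℝ), z) :=
      ((hΨ _ (hW0 z hz)).differentiableAt (by simp)).hasFDerivAt
    have h2 : HasDerivAt (fun t : ℝ => ((t, z) : ℝ × E)) ((1 : ℝ), (0 : E)) 0 :=
      (hasDerivAt_id (0 : ℝ)).prodMk (hasDerivAt_const 0 z)
    have h3 := h1.comp_hasDerivAt (0 : ℝ) h2
    have h4 := hΦ.integral ((ch E p).symm z) 0
    have hx0 : Φ ((ch E p).symm z) 0 = (ch E p).symm z := hΦ.zero _
    have h5 : HasMFDerivAt 𝓘(ℝ, E) 𝓘(ℝ, E) (ch E p) (Φ ((ch E p).symm z) 0)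
        (D (E := E) (E' := E) (ch E p) (Φ ((ch E p).symm z) 0)) := by
      refine (mdiff_chart ?_).hasMFDerivAt
      rw [hx0]
      exact (ch E p).map_target hz
    have h6 : HasFDerivAt (Ψ ∘ fun t : ℝ => (t, z))
        ((D (E := E) (E' := E) (ch E p) (Φ ((ch E p).symm z) 0)).comp
          (ContinuousLinearMap.toSpanSingleton ℝ (R (Φ ((ch E p).symm z) 0)))) 0 :=
      (HasMFDerivAt.comp (0 : ℝ) h5 h4).hasFDerivAt
    have h7 := DFunLike.congr_fun (h3.hasFDerivAt.unique h6) (1 : ℝ)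
    simp only [ContinuousLinearMap.comp_apply, ContinuousLinearMap.toSpanSingleton_apply,
      one_smul] at h7
    rw [h7, hx0]
    rfl
  have hz₀W : ((0 : ℝ), z₀) ∈ W := hW0 z₀ hz₀
  have hct : Continuous fun t : ℝ => ((t, z₀) : ℝ × E) := by fun_prop
  have hcz : Continuous fun z : E => (((0 : ℝ), z) : ℝ × E) := by fun_prop
  have hWt : ∀ᶠ t in 𝓝 (0 : ℝ), (t, z₀) ∈ W := hct.continuousAt.preimage_mem_nhds
    (hWo.mem_nhds hz₀W)
  -- the space derivative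
  have hD : ∀ t, (t, z₀) ∈ W → ∀ v, fderiv ℝ (hat E p (fun y => Φ y t)) z₀ v =
      fderiv ℝ Ψ (t, z₀) ((0 : ℝ), v) := by
    intro t ht v
    have h1 : HasFDerivAt Ψ (fderiv ℝ Ψ (t, z₀)) (t, z₀) :=
      ((hΨ _ ht).differentiableAt (by simp)).hasFDerivAt
    have h2 : HasFDerivAt (fun z : E => ((t, z) : ℝ × E)) (ContinuousLinearMap.inr ℝ ℝ E) z₀ :=
      hasFDerivAt_prodMk_right t z₀
    have h3 : HasFDerivAt (hat E p (fun y => Φ y t))
        ((fderiv ℝ Ψ (t, z₀)).comp (ContinuousLinearMap.inr ℝ ℝ E)) z₀ :=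
      HasFDerivAt.comp z₀ h1 h2
    rw [h3.fderiv]
    rfl
  have hΨ0 : Ψ (0, z₀) = z₀ := by
    show ch E p (Φ ((ch E p).symm z₀) 0) = z₀
    rw [hΦ.zero, (ch E p).right_inv hz₀]
  have hhat0 : ∀ v, fderiv ℝ Ψ ((0 : ℝ), z₀) ((0 : ℝ), v) = v := by
    intro v
    rw [← hD 0 hz₀W v]
    have h1 : hat E p (fun y => Φ y 0) =ᶠ[𝓝 z₀] id := by
      filter_upwards [(isOpen_extChartAt_target p).mem_nhds hz₀] with z hz
      show ch E p (Φ ((ch E p).symm z) 0) = z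
      rw [hΦ.zero, (ch E p).right_inv hz]
    rw [h1.fderiv_eq, fderiv_id]
    rfl
  -- the function `H`
  set H : ℝ → ℝ := fun t => ep (Ψ (t, z₀)) (fderiv ℝ Ψ (t, z₀) ((0 : ℝ), s z₀)) with hH
  have hH0 : H 0 = 1 := by
    simp only [hH]
    rw [hhat0, hΨ0]
    exact hnear.self_of_nhds.1
  have hψ1 : HasDerivAt (fun t : ℝ => Ψ (t, z₀)) (cVec R p z₀) 0 := by
    have h1 : HasFDerivAt Ψ (fderiv ℝ Ψ ((0 : ℝ), z₀)) ((0 : ℝ), z₀) :=
      ((hΨ _ hz₀W).differentiableAt (by simp)).hasFDerivAt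
    have h2 : HasDerivAt (fun t : ℝ => ((t, z₀) : ℝ × E)) ((1 : ℝ), (0 : E)) 0 :=
      (hasDerivAt_id (0 : ℝ)).prodMk (hasDerivAt_const 0 z₀)
    have h3 := h1.comp_hasDerivAt (0 : ℝ) h2
    rw [hR z₀ hz₀] at h3
    exact h3
  have hepd : HasFDerivAt ep (fderiv ℝ ep z₀) (Ψ (0, z₀)) := by
    rw [hΨ0]
    exact (hep.differentiableAt (by simp)).hasFDerivAt
  have hd1 : HasDerivAt (fun t : ℝ => ep (Ψ (t, z₀))) (fderiv ℝ ep z₀ (cVec R p z₀)) 0 :=
    hepd.comp_hasDerivAt (0 : ℝ) hψ1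
  -- second derivatives
  set S := fderiv ℝ (fderiv ℝ Ψ) ((0 : ℝ), z₀) with hS
  have hSd : HasFDerivAt (fderiv ℝ Ψ) S ((0 : ℝ), z₀) :=
    (((hΨ _ hz₀W).fderiv_right (m := ∞) (by simp)).differentiableAt (by simp)).hasFDerivAt
  have hsymm : ∀ a b, S a b = S b a := by
    intro a b
    have := (hΨ _ hz₀W).isSymmSndFDerivAt (by
      simp only [minSmoothness_of_isRCLikeNormedField]; exact ENat.LEInfty.out)
    exact this a b
  have hd2 : HasDerivAt (fun t : ℝ => fderiv ℝ Ψ (t, z₀) ((0 : ℝ), s z₀))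
      (S ((1 : ℝ), (0 : E)) ((0 : ℝ), s z₀)) 0 := by
    have h2 : HasDerivAt (fun t : ℝ => ((t, z₀) : ℝ × E)) ((1 : ℝ), (0 : E)) 0 :=
      (hasDerivAt_id (0 : ℝ)).prodMk (hasDerivAt_const 0 z₀)
    have h3 := hSd.comp_hasDerivAt (0 : ℝ) h2
    exact h3.clm_apply (hasDerivAt_const 0 ((0 : ℝ), s z₀)) |>.congr_deriv (by simp)
  have hRd : HasFDerivAt (cVec R p) ((ContinuousLinearMap.apply ℝ E ((1 : ℝ), (0 : E))).comp
      (S.comp (ContinuousLinearMap.inr ℝ ℝ E))) z₀ := by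
    have h2 : HasFDerivAt (fun z : E => (((0 : ℝ), z) : ℝ × E))
      (ContinuousLinearMap.inr ℝ ℝ E) z₀ := hasFDerivAt_prodMk_right 0 z₀
    have h3 : HasFDerivAt (fun z : E => fderiv ℝ Ψ ((0 : ℝ), z) ((1 : ℝ), (0 : E)))
        ((ContinuousLinearMap.apply ℝ E ((1 : ℝ), (0 : E))).comp
          (S.comp (ContinuousLinearMap.inr ℝ ℝ E))) z₀ :=
      (ContinuousLinearMap.apply ℝ E ((1 : ℝ), (0 : E))).hasFDerivAt.comp z₀ (hSd.comp z₀ h2)
    refine h3.congr_of_eventuallyEq ?_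
    filter_upwards [(isOpen_extChartAt_target p).mem_nhds hz₀] with z hz
    exact (hR z hz).symm
  -- differentiate `ep R = 0`
  have hrel : fderiv ℝ ep z₀ (s z₀) (cVec R p z₀) +
      ep z₀ (S ((0 : ℝ), s z₀) ((1 : ℝ), (0 : E))) = 0 := by
    have h1 : HasFDerivAt (fun z => ep z (cVec R p z)) _ z₀ :=
      (hep.differentiableAt (by simp)).hasFDerivAt.clm_apply hRd
    have h2 : (fun z => ep z (cVec R p z)) =ᶠ[𝓝 z₀] fun _ => (0 : ℝ) := by
      filter_upwards [hnear] with z hz using hz.2.1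
    have h3 : HasFDerivAt (fun z => ep z (cVec R p z)) (0 : E →L[ℝ] ℝ) z₀ :=
      (hasFDerivAt_const (0 : ℝ) z₀).congr_of_eventuallyEq h2
    have h4 := DFunLike.congr_fun (h1.unique h3) (s z₀)
    simp at h4
    linarith
  have hHd : HasDerivAt H (- dd ep z₀ (s z₀) (cVec R p z₀)) 0 := by
    have h1 := hd1.clm_apply hd2
    refine h1.congr_deriv ?_
    rw [hhat0, hΨ0, hsymm]
    unfold dd
    linarith
  have hlog : HasDerivAt (fun t => Real.log (H t)) (- dd ep z₀ (s z₀) (cVec R p z₀)) 0 := by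
    have h1 := hHd.log (by rw [hH0]; exact one_ne_zero)
    rw [hH0, div_one] at h1
    exact h1
  refine hlog.congr_of_eventuallyEq ?_
  have hnt : ∀ᶠ t in 𝓝 (0 : ℝ), ep (Ψ (t, z₀)) (s (Ψ (t, z₀))) = 1 ∧
      ‖fderiv ℝ (e ∘ (ch E p).symm) (Ψ (t, z₀)) (s (Ψ (t, z₀)))‖ = 1 := by
    have h1 : Tendsto (fun t : ℝ => Ψ (t, z₀)) (𝓝 0) (𝓝 z₀) := by
      have := hψ1.continuousAt.tendsto
      simp only [hΨ0] at this
      exact this
    filter_upwards [h1.eventually hnear] with t ht using ⟨ht.1, ht.2.2⟩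
  filter_upwards [hWt, hsmall, hnt] with t ht hts htn
  obtain ⟨h, hh⟩ := hts
  have hhat : hat E p (fun y => Φ y t) z₀ = Ψ (t, z₀) := rfl
  rw [hhat] at hh
  have hHt : H t = h := by
    simp only [hH]
    rw [← hD t ht, hh, map_smul, htn.1, smul_eq_mul, mul_one]
  have hΦt : ContMDiff 𝓘(ℝ, E) 𝓘(ℝ, E) ∞ (fun y => Φ y t) := by
    have h1 : ContMDiff 𝓘(ℝ, E) (𝓘(ℝ, E).prod 𝓘(ℝ, ℝ)) ∞ (fun y : M => (y, t)) :=
      contMDiff_id.prodMk contMDiff_const
    exact hΦs.comp h1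
  have hder : fderiv ℝ (e ∘ (fun y => Φ y t) ∘ (ch E p).symm) z₀ (s z₀) =
      fderiv ℝ (e ∘ (ch E p).symm) (Ψ (t, z₀)) (fderiv ℝ (hat E p (fun y => Φ y t)) z₀ (s z₀)) := by
    have h1 : e ∘ (fun y => Φ y t) ∘ (ch E p).symm =ᶠ[𝓝 z₀]
        (e ∘ (ch E p).symm) ∘ hat E p (fun y => Φ y t) := by
      filter_upwards [hat_eventually hΦt hz₀ ht.2] with z hz
      show e (Φ ((ch E p).symm z) t) = e ((ch E p).symm (ch E p (Φ ((ch E p).symm z) t)))
      rw [(ch E p).left_inv hz.2]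
    rw [h1.fderiv_eq]
    have h2 : DifferentiableAt ℝ (hat E p (fun y => Φ y t)) z₀ :=
      (contDiffAt_hat hΦt hz₀ ht.2).differentiableAt (by simp)
    have h3 : DifferentiableAt ℝ (e ∘ (ch E p).symm) (hat E p (fun y => Φ y t) z₀) := by
      refine ((contDiffOn_imm (p := p) he).contDiffAt
        ((isOpen_extChartAt_target p).mem_nhds ?_)).differentiableAt (by simp)
      exact (ch E p).map_source ht.2
    rw [fderiv_comp z₀ h3 h2]
    rfl
  rw [hder, hh, map_smul, norm_smul, htn.2, mul_one, hHt, Real.norm_eq_abs, Real.log_abs]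

end Pool.Agent.H15.LR
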