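import Mathlib
import Pool.Agent.H75.PR.Ode

/-! Propagation of bounded one-jets of isometries between two metrics. -/

open scoped Topology ContDiff
open Set Filter Metric

noncomputable section

set_option maxSynthPendingDepth 3

namespace Pool.Agent.H15.LR

open Pool.Agent.H75.PR (continuation)

variable {E : Type*} [NormedAddCommGroup E] [NormedSpace ℝ E]

/-- the derivative of the invariance equation -/
lemma deriv_inv2 {G₁ G₂ : E → E →L[ℝ] E →L[ℝ] ℝ} {f : E → E} {z : E}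
    (hGz : DifferentiableAt ℝ G₁ z) (hGf : DifferentiableAt ℝ G₂ (f z))
    (hf : ContDiffAt ℝ 2 f z)
    (hinv : ∀ᶠ y in 𝓝 z, ∀ u v, G₂ (f y) (fderiv ℝ f y u) (fderiv ℝ f y v) = G₁ y u v)
    (w u v : E) :
    G₂ (f z) (fderiv ℝ (fderiv ℝ f) z w u) (fderiv ℝ f z v) +
      G₂ (f z) (fderiv ℝ f z u) (fderiv ℝ (fderiv ℝ f) z w v) =
    fderiv ℝ G₁ z w u v -
      fderiv ℝ G₂ (f z) (fderiv ℝ f z w) (fderiv ℝ f z u) (fderiv ℝ f z v) := by
  have hfd : HasFDerivAt f (fderiv ℝ f z) z := (hf.differentiableAt (by norm_num)).hasFDerivAt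
  have hA : HasFDerivAt (fderiv ℝ f) (fderiv ℝ (fderiv ℝ f) z) z :=
    ((hf.fderiv_right (m := 1) (by norm_num)).differentiableAt (by norm_num)).hasFDerivAt
  have hAu : ∀ u : E, HasFDerivAt (fun y => fderiv ℝ f y u)
      ((ContinuousLinearMap.apply ℝ E u).comp (fderiv ℝ (fderiv ℝ f) z)) z := fun u =>
    (ContinuousLinearMap.apply ℝ E u).hasFDerivAt.comp z hA
  have hG1 : HasFDerivAt (fun y => G₂ (f y)) ((fderiv ℝ G₂ (f z)).comp (fderiv ℝ f z)) z :=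
    HasFDerivAt.comp z (g := G₂) (f := f) hGf.hasFDerivAt hfd
  have h1 := (hG1.clm_apply (hAu u)).clm_apply (hAu v)
  have h2 : HasFDerivAt (fun y => G₁ y u v)
      ((ContinuousLinearMap.apply ℝ ℝ v).comp
        ((ContinuousLinearMap.apply ℝ (E →L[ℝ] ℝ) u).comp (fderiv ℝ G₁ z))) z :=
    (ContinuousLinearMap.apply ℝ ℝ v).hasFDerivAt.comp z
      ((ContinuousLinearMap.apply ℝ (E →L[ℝ] ℝ) u).hasFDerivAt.comp z hGz.hasFDerivAt)
  have h3 := h1.congr_of_eventuallyEq (f₁ := fun y => G₁ y u v) (by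
    filter_upwards [hinv] with y hy
    exact (hy u v).symm)
  have h4 := DFunLike.congr_fun (h3.unique h2) w
  simp only [add_apply, ContinuousLinearMap.comp_apply,
      ContinuousLinearMap.flip_apply, ContinuousLinearMap.apply_apply] at h4
  linarith

/-- the Koszul formula for the second derivative of an isometry -/
lemma koszul2 {G₁ G₂ : E → E →L[ℝ] E →L[ℝ] ℝ} {f : E → E} {z : E}
    (hGz : DifferentiableAt ℝ G₁ z) (hGf : DifferentiableAt ℝ G₂ (f z))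
    (hf : ContDiffAt ℝ 2 f z) (hsymm : ∀ u v, G₂ (f z) u v = G₂ (f z) v u)
    (hinv : ∀ᶠ y in 𝓝 z, ∀ u v, G₂ (f y) (fderiv ℝ f y u) (fderiv ℝ f y v) = G₁ y u v)
    {S : E → E → E → ℝ} (hS : ∀ w u v, S w u v = fderiv ℝ G₁ z w u v -
      fderiv ℝ G₂ (f z) (fderiv ℝ f z w) (fderiv ℝ f z u) (fderiv ℝ f z v))
    (w u v : E) :
    2 * G₂ (f z) (fderiv ℝ (fderiv ℝ f) z w u) (fderiv ℝ f z v) =
      S w u v + S u w v - S v w u := by
  have hs : ∀ a b, fderiv ℝ (fderiv ℝ f) z a b = fderiv ℝ (fderiv ℝ f) z b a := by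
    intro a b
    have := hf.isSymmSndFDerivAt (by simp)
    exact this a b
  have key := deriv_inv2 hGz hGf hf hinv
  rw [hS, hS, hS, ← key w u v, ← key u w v, ← key v w u, hs u w, hs v w, hs v u]
  rw [hsymm (fderiv ℝ f z u) (fderiv ℝ (fderiv ℝ f) z w v),
    hsymm (fderiv ℝ f z w) (fderiv ℝ (fderiv ℝ f) z u v)]
  ring

/-- the second derivative of an isometry with bounded one-jet is bounded -/
lemma hess2 [FiniteDimensional ℝ E] {G₁ G₂ : E → E →L[ℝ] E →L[ℝ] ℝ} {f : E → E} {z : E}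
    (hGz : DifferentiableAt ℝ G₁ z) (hGf : DifferentiableAt ℝ G₂ (f z))
    (hf : ContDiffAt ℝ 2 f z) (hsymm : ∀ u v, G₂ (f z) u v = G₂ (f z) v u)
    (hinv : ∀ᶠ y in 𝓝 z, ∀ u v, G₂ (f y) (fderiv ℝ f y u) (fderiv ℝ f y v) = G₁ y u v)
    {C c b : ℝ} (hc : 0 < c) (hC : 0 < C) (hb : 0 < b) (h1 : ‖fderiv ℝ G₁ z‖ ≤ C)
    (h2 : ‖fderiv ℝ G₂ (f z)‖ ≤ C) (h3 : ‖G₂ (f z)‖ ≤ C)
    (h4 : ∀ a, c * ‖a‖ ≤ ‖G₁ z a‖) (h5 : ∀ a, c * ‖a‖ ≤ ‖G₂ (f z) a‖)
    (hA : ‖fderiv ℝ f z‖ ≤ b) :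
    ‖fderiv ℝ (fderiv ℝ f) z‖ ≤ 2 * C * (1 + b ^ 3) * (C * b / c) / c := by
  set A := fderiv ℝ f z with hAdef
  set H := fderiv ℝ (fderiv ℝ f) z with hH
  have hAn : ∀ u, ‖A u‖ ≤ b * ‖u‖ := fun u => (A.le_opNorm u).trans (by gcongr)
  have tri : ∀ (T : E →L[ℝ] E →L[ℝ] E →L[ℝ] ℝ) (a b d : E), |T a b d| ≤ ‖T‖ * ‖a‖ * ‖b‖ * ‖d‖ := by
    intro T a b d
    rw [← Real.norm_eq_abs]
    calc ‖T a b d‖ ≤ ‖T a b‖ * ‖d‖ := (T a b).le_opNorm d
      _ ≤ (‖T a‖ * ‖b‖) * ‖d‖ := by gcongr; exact (T a).le_opNorm b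
      _ ≤ ((‖T‖ * ‖a‖) * ‖b‖) * ‖d‖ := by gcongr; exact T.le_opNorm a
  set S : E → E → E → ℝ := fun w u v => fderiv ℝ G₁ z w u v -
      fderiv ℝ G₂ (f z) (A w) (A u) (A v) with hS
  have hSb : ∀ w u v, |S w u v| ≤ C * (1 + b ^ 3) * (‖w‖ * ‖u‖ * ‖v‖) := by
    intro w u v
    have b0 : |fderiv ℝ G₁ z w u v| ≤ C * (‖w‖ * ‖u‖ * ‖v‖) := by
      refine (tri _ w u v).trans ?_
      calc ‖fderiv ℝ G₁ z‖ * ‖w‖ * ‖u‖ * ‖v‖ ≤ C * ‖w‖ * ‖u‖ * ‖v‖ := by gcongr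
        _ = _ := by ring
    have b3 : |fderiv ℝ G₂ (f z) (A w) (A u) (A v)| ≤ C * b ^ 3 * (‖w‖ * ‖u‖ * ‖v‖) := by
      refine (tri _ _ _ _).trans ?_
      calc ‖fderiv ℝ G₂ (f z)‖ * ‖A w‖ * ‖A u‖ * ‖A v‖ ≤
          C * (b * ‖w‖) * (b * ‖u‖) * (b * ‖v‖) := by
            gcongr
            · exact hAn w
            · exact hAn u
            · exact hAn v
        _ = _ := by ring
    have c1 := abs_sub (fderiv ℝ G₁ z w u v) (fderiv ℝ G₂ (f z) (A w) (A u) (A v))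
    have e1 : S w u v = fderiv ℝ G₁ z w u v - fderiv ℝ G₂ (f z) (A w) (A u) (A v) := rfl
    rw [e1]
    refine c1.trans ?_
    linarith
  have key := koszul2 hGz hGf hf hsymm hinv (S := S) (fun _ _ _ => rfl)
  have hT : ∀ w u v, |G₂ (f z) (H w u) (A v)| ≤ 2 * C * (1 + b ^ 3) * (‖w‖ * ‖u‖ * ‖v‖) := by
    intro w u v
    have k := key w u v
    have s1 := abs_le.1 (hSb w u v)
    have s2 := abs_le.1 (hSb u w v)
    have s3 := abs_le.1 (hSb v w u)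
    have e1 : ‖u‖ * ‖w‖ * ‖v‖ = ‖w‖ * ‖u‖ * ‖v‖ := by ring
    have e2 : ‖v‖ * ‖w‖ * ‖u‖ = ‖w‖ * ‖u‖ * ‖v‖ := by ring
    have e3 : 0 ≤ C * (1 + b ^ 3) * (‖w‖ * ‖u‖ * ‖v‖) := by positivity
    rw [e1] at s2
    rw [e2] at s3
    rw [abs_le]
    constructor <;> linarith
  -- the derivative is bounded from below
  have hlow : ∀ u, ‖u‖ ≤ C * b / c * ‖A u‖ := by
    intro u
    have h6 : ‖G₁ z u‖ ≤ C * b * ‖A u‖ := by
      refine ContinuousLinearMap.opNorm_le_bound _ (by positivity) fun v => ?_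
      rw [← hinv.self_of_nhds u v]
      calc ‖G₂ (f z) (A u) (A v)‖ ≤ ‖G₂ (f z) (A u)‖ * ‖A v‖ := (G₂ (f z) (A u)).le_opNorm _
        _ ≤ (‖G₂ (f z)‖ * ‖A u‖) * (b * ‖v‖) := by
            gcongr
            · exact (G₂ (f z)).le_opNorm _
            · exact hAn v
        _ ≤ (C * ‖A u‖) * (b * ‖v‖) := by gcongr
        _ = _ := by ring
    have h7 := (h4 u).trans h6
    have : ‖u‖ = (c * ‖u‖) / c := by field_simp
    rw [this]
    calc c * ‖u‖ / c ≤ C * b * ‖A u‖ / c := by gcongr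
      _ = _ := by ring
  have hsurj : Function.Surjective A := by
    have hinj : Function.Injective (A : E →ₗ[ℝ] E) := by
      rw [injective_iff_map_eq_zero]
      intro u hu
      have h8 := hlow u
      have h9 : A u = 0 := hu
      rw [h9, norm_zero, mul_zero] at h8
      exact norm_le_zero_iff.1 h8
    exact LinearMap.injective_iff_surjective.1 hinj
  have hGH : ∀ w u, ‖G₂ (f z) (H w u)‖ ≤ 2 * C * (1 + b ^ 3) * (C * b / c) * (‖w‖ * ‖u‖) := by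
    intro w u
    refine ContinuousLinearMap.opNorm_le_bound _ (by positivity) fun x => ?_
    obtain ⟨v, rfl⟩ := hsurj x
    have e3 := hT w u v
    rw [← Real.norm_eq_abs] at e3
    refine e3.trans ?_
    calc 2 * C * (1 + b ^ 3) * (‖w‖ * ‖u‖ * ‖v‖)
        ≤ 2 * C * (1 + b ^ 3) * (‖w‖ * ‖u‖ * (C * b / c * ‖A v‖)) := by
          gcongr
          exact hlow v
      _ = _ := by ring
  have hHb : ∀ w u, ‖H w u‖ ≤ 2 * C * (1 + b ^ 3) * (C * b / c) / c * (‖w‖ * ‖u‖) := by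
    intro w u
    have h6 := (h5 (H w u)).trans (hGH w u)
    have : ‖H w u‖ = (c * ‖H w u‖) / c := by field_simp
    rw [this]
    calc c * ‖H w u‖ / c ≤ 2 * C * (1 + b ^ 3) * (C * b / c) * (‖w‖ * ‖u‖) / c := by gcongr
      _ = _ := by ring
  refine ContinuousLinearMap.opNorm_le_bound _ (by positivity) fun w => ?_
  refine ContinuousLinearMap.opNorm_le_bound _ (by positivity) fun u => ?_
  refine (hHb w u).trans (le_of_eq ?_)
  ring

/-- bounds for two metrics -/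
structure MB2 (G₁ G₂ : E → E →L[ℝ] E →L[ℝ] ℝ) (c₁ c₂ : E) (r C c : ℝ) : Prop where
  hr : 0 < r
  hC : 0 < C
  hc : 0 < c
  diff1 : ∀ y ∈ closedBall c₁ (2 * r), DifferentiableAt ℝ G₁ y
  diff2 : ∀ y ∈ closedBall c₂ (3 * r), DifferentiableAt ℝ G₂ y
  bound1 : ∀ y ∈ closedBall c₁ (2 * r), ‖fderiv ℝ G₁ y‖ ≤ C
  bound2 : ∀ y ∈ closedBall c₂ (3 * r), ‖fderiv ℝ G₂ y‖ ≤ C
  up2 : ∀ y ∈ closedBall c₂ (3 * r), ‖G₂ y‖ ≤ C
  low1 : ∀ y ∈ closedBall c₁ (2 * r), ∀ a, c * ‖a‖ ≤ ‖G₁ y a‖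
  low2 : ∀ y ∈ closedBall c₂ (3 * r), ∀ a, c * ‖a‖ ≤ ‖G₂ y a‖
  symm : ∀ y ∈ closedBall c₂ (3 * r), ∀ u v, G₂ y u v = G₂ y v u

/-- a partially defined isometry between two charts -/
structure LI2 (G₁ G₂ : E → E →L[ℝ] E →L[ℝ] ℝ) (c₁ c₂ : E) (r : ℝ) (f : E → E) (D : Set E) :
    Prop where
  closed : IsClosed (D ∩ closedBall c₁ (2 * r))
  maps : ∀ z ∈ D ∩ closedBall c₁ (2 * r), f z ∈ closedBall c₂ (3 * r)
  smooth : ∀ z ∈ D ∩ closedBall c₁ (2 * r), ContDiffAt ℝ 2 f z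
  inv : ∀ z ∈ D ∩ closedBall c₁ (2 * r), ∀ᶠ y in 𝓝 z, ∀ u v,
    G₂ (f y) (fderiv ℝ f y u) (fderiv ℝ f y v) = G₁ y u v
  op : ∀ z ∈ D ∩ closedBall c₁ (2 * r), f z ∈ ball c₂ (3 * r) → D ∈ 𝓝 z

/-- **Propagation of bounded one-jets.** -/
theorem propagate2 [FiniteDimensional ℝ E] {G₁ G₂ : E → E →L[ℝ] E →L[ℝ] ℝ} {c₁ c₂ : E}
    {r C c : ℝ} (hG : MB2 G₁ G₂ c₁ c₂ r C c) {a : ℝ} (ha : 0 < a) :
    ∃ ρ > 0, ∀ (f : E → E) (D : Set E), LI2 G₁ G₂ c₁ c₂ r f D →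
      ∀ y₀ ∈ D ∩ closedBall c₁ r, f y₀ ∈ closedBall c₂ r → ‖fderiv ℝ f y₀‖ ≤ a →
        ∀ y₁, ‖y₁ - y₀‖ ≤ ρ →
        y₁ ∈ D ∧ ‖fderiv ℝ f y₁‖ ≤ 2 * a ∧ ‖f y₁ - f y₀‖ ≤ 2 * a * ‖y₁ - y₀‖ := by
  have hr := hG.hr
  have hC := hG.hC
  have hc := hG.hc
  set b : ℝ := 2 * a with hbdef
  have hb : 0 < b := by positivity
  set K : ℝ := 2 * C * (1 + b ^ 3) * (C * b / c) / c with hK
  have hK0 : 0 < K := by positivity
  set Λ : ℝ := 2 / r * b + 2 / a * K with hΛ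
  have hΛ0 : 0 < Λ := by positivity
  set ρ : ℝ := min r (1 / (2 * Λ)) with hρ
  have hρ0 : 0 < ρ := by positivity
  have hρr : ρ ≤ r := min_le_left _ _
  have hρΛ : Λ * ρ ≤ 1 / 2 := by
    have h1 : ρ ≤ 1 / (2 * Λ) := min_le_right _ _
    rw [le_div_iff₀ (by positivity)] at h1
    linarith
  have hexp : Real.exp (1 / 2) < 2 := by
    have h1 : Real.exp (1 / 2) ^ 2 = Real.exp 1 := by
      rw [← Real.exp_nat_mul]
      norm_num
    have h2 := Real.exp_one_lt_d9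
    have h3 := Real.exp_pos (1 / 2)
    nlinarith
  refine ⟨ρ, hρ0, ?_⟩
  rintro f D hf y₀ ⟨hy₀D, hy₀⟩ hfy₀ hj y₁ hy₁
  set w := y₁ - y₀ with hw
  set z : ℝ → E := fun s => y₀ + s • w with hz
  have hzK : ∀ s ∈ Icc (0:ℝ) 1, z s ∈ closedBall c₁ (2 * r) := by
    intro s hs
    rw [mem_closedBall, dist_eq_norm]
    have e1 : z s - c₁ = (y₀ - c₁) + s • w := by simp only [hz]; abel
    rw [e1]
    refine (norm_add_le _ _).trans ?_
    rw [norm_smul, Real.norm_eq_abs, abs_of_nonneg hs.1]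
    have h1 : ‖y₀ - c₁‖ ≤ r := by rwa [mem_closedBall, dist_eq_norm] at hy₀
    have h2 : s * ‖w‖ ≤ 1 * r := by
      refine mul_le_mul hs.2 (hy₁.trans hρr) (norm_nonneg _) zero_le_one
    linarith
  have hzc : Continuous z := by fun_prop
  have hzd : ∀ s, HasDerivAt z w s := by
    intro s
    have h1 : HasDerivAt (fun s : ℝ => s • w) ((1:ℝ) • w) s := (hasDerivAt_id s).smul_const w
    rw [one_smul] at h1
    exact h1.const_add y₀
  set F : ℝ → ℝ × E × (E →L[ℝ] E) := fun s =>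
    (1, (2 / r) • (f (z s) - f y₀), (2 / a) • (fderiv ℝ f (z s) - fderiv ℝ f y₀)) with hF
  set F' : ℝ → ℝ × E × (E →L[ℝ] E) := fun s =>
    (0, (2 / r) • fderiv ℝ f (z s) w, (2 / a) • fderiv ℝ (fderiv ℝ f) (z s) w) with hF'
  set DD : Set ℝ := z ⁻¹' D with hDD
  have hmem : ∀ s ∈ DD ∩ Icc (0:ℝ) 1, z s ∈ D ∩ closedBall c₁ (2 * r) :=
    fun s hs => ⟨hs.1, hzK s hs.2⟩
  have hcl : IsClosed (DD ∩ Icc (0:ℝ) 1) := by
    have h1 : DD ∩ Icc (0:ℝ) 1 = z ⁻¹' (D ∩ closedBall c₁ (2 * r)) ∩ Icc (0:ℝ) 1 := by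
      ext s
      constructor
      · intro hs; exact ⟨hmem s hs, hs.2⟩
      · intro hs; exact ⟨hs.1.1, hs.2⟩
    rw [h1]
    exact (hf.closed.preimage hzc).inter isClosed_Icc
  have hfd : ∀ s ∈ DD ∩ Icc (0:ℝ) 1, HasDerivAt (fun s => f (z s)) (fderiv ℝ f (z s) w) s := by
    intro s hs
    have hsm := hf.smooth _ (hmem s hs)
    have h1 : HasFDerivAt f (fderiv ℝ f (z s)) (z s) :=
      (hsm.differentiableAt (by norm_num)).hasFDerivAt
    exact h1.comp_hasDerivAt s (hzd s)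
  have hder : ∀ s ∈ DD ∩ Icc (0:ℝ) 1, HasDerivAt F (F' s) s := by
    intro s hs
    have hsm := hf.smooth _ (hmem s hs)
    have h2 : HasFDerivAt (fderiv ℝ f) (fderiv ℝ (fderiv ℝ f) (z s)) (z s) :=
      ((hsm.fderiv_right (m := 1) (by norm_num)).differentiableAt (by norm_num)).hasFDerivAt
    have h3 : HasDerivAt (fun s => (2 / r) • (f (z s) - f y₀)) ((2 / r) • fderiv ℝ f (z s) w) s :=
      ((hfd s hs).sub_const _).const_smul _
    have h4 : HasDerivAt (fun s => (2 / a) • (fderiv ℝ f (z s) - fderiv ℝ f y₀))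
        ((2 / a) • fderiv ℝ (fderiv ℝ f) (z s) w) s := by
      have h5 : HasDerivAt (fun s => fderiv ℝ f (z s)) (fderiv ℝ (fderiv ℝ f) (z s) w) s :=
        h2.comp_hasDerivAt s (hzd s)
      have h6 : HasDerivAt (fun s => fderiv ℝ f (z s) - fderiv ℝ f y₀)
          (fderiv ℝ (fderiv ℝ f) (z s) w) s := h5.sub_const _
      exact h6.const_smul (2 / a)
    exact (hasDerivAt_const s (1:ℝ)).prodMk (h3.prodMk h4)
  have hF1 : ∀ s, 1 ≤ ‖F s‖ := by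
    intro s
    have h1 : ‖(F s).1‖ ≤ ‖F s‖ := norm_fst_le (F s)
    have h2 : ‖(F s).1‖ = 1 := by simp [hF]
    rw [h2] at h1
    exact h1
  have hFa : ∀ s, 2 / r * ‖f (z s) - f y₀‖ ≤ ‖F s‖ := by
    intro s
    have h1 : ‖(F s).2.1‖ ≤ ‖F s‖ := (norm_fst_le (F s).2).trans (norm_snd_le (F s))
    have h2 : ‖(F s).2.1‖ = 2 / r * ‖f (z s) - f y₀‖ := by
      show ‖(2 / r) • (f (z s) - f y₀)‖ = _
      rw [norm_smul, Real.norm_eq_abs, abs_of_pos (by positivity)]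
    rwa [h2] at h1
  have hFb : ∀ s, 2 / a * ‖fderiv ℝ f (z s) - fderiv ℝ f y₀‖ ≤ ‖F s‖ := by
    intro s
    have h1 : ‖(F s).2.2‖ ≤ ‖F s‖ := (norm_snd_le (F s).2).trans (norm_snd_le (F s))
    have h2 : ‖(F s).2.2‖ = 2 / a * ‖fderiv ℝ f (z s) - fderiv ℝ f y₀‖ := by
      show ‖(2 / a) • (fderiv ℝ f (z s) - fderiv ℝ f y₀)‖ = _
      rw [norm_smul, Real.norm_eq_abs, abs_of_pos (by positivity)]
    rwa [h2] at h1
  have hnear : ∀ s, ‖F s‖ ≤ 2 → ‖f (z s) - f y₀‖ ≤ r ∧ ‖fderiv ℝ f (z s)‖ ≤ b := by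
    intro s hs
    have h1 := (hFa s).trans hs
    have h2 := (hFb s).trans hs
    constructor
    · rw [div_mul_eq_mul_div, div_le_iff₀ hr] at h1
      linarith
    · rw [div_mul_eq_mul_div, div_le_iff₀ ha] at h2
      have h3 : ‖fderiv ℝ f (z s) - fderiv ℝ f y₀‖ ≤ a := by linarith
      have h4 : fderiv ℝ f (z s) = (fderiv ℝ f (z s) - fderiv ℝ f y₀) + fderiv ℝ f y₀ := by abel
      rw [h4]
      refine (norm_add_le _ _).trans ?_
      rw [hbdef]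
      linarith
  have hF0 : ‖F 0‖ = 1 := by
    have e0 : z 0 = y₀ := by simp [hz]
    have h1 : F 0 = (1, 0, 0) := by simp [hF, e0]
    rw [h1]
    simp [Prod.norm_def]
  have key := continuation (F := F) (F' := F') (D := DD) (C := 1 / 2) (η := 2) (by norm_num)
    (by show z 0 ∈ D; simpa [hz] using hy₀D) hcl hder
    (by
      intro s hs hsη
      have hm := hmem s hs
      have hfz := hf.maps _ hm
      obtain ⟨a1, a2⟩ := hnear s hsη
      have hh := hess2 (hG.diff1 _ hm.2) (hG.diff2 _ hfz) (hf.smooth _ hm)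
        (hG.symm _ hfz) (hf.inv _ hm) hc hC hb (hG.bound1 _ hm.2) (hG.bound2 _ hfz)
        (hG.up2 _ hfz) (hG.low1 _ hm.2) (hG.low2 _ hfz) a2
      have hb1 : ‖(2 / r) • fderiv ℝ f (z s) w‖ ≤ 2 / r * b * ρ := by
        rw [norm_smul, Real.norm_eq_abs, abs_of_pos (by positivity)]
        have : ‖fderiv ℝ f (z s) w‖ ≤ b * ρ :=
          (ContinuousLinearMap.le_opNorm _ _).trans (by gcongr)
        calc 2 / r * ‖fderiv ℝ f (z s) w‖ ≤ 2 / r * (b * ρ) := by gcongr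
          _ = _ := by ring
      have hb2 : ‖(2 / a) • fderiv ℝ (fderiv ℝ f) (z s) w‖ ≤ 2 / a * K * ρ := by
        rw [norm_smul, Real.norm_eq_abs, abs_of_pos (by positivity)]
        have : ‖fderiv ℝ (fderiv ℝ f) (z s) w‖ ≤ K * ρ :=
          (ContinuousLinearMap.le_opNorm _ _).trans (by gcongr)
        calc 2 / a * ‖fderiv ℝ (fderiv ℝ f) (z s) w‖ ≤ 2 / a * (K * ρ) := by gcongr
          _ = _ := by ring
      have hp1 : 0 ≤ 2 / r * b * ρ := by positivity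
      have hp2 : 0 ≤ 2 / a * K * ρ := by positivity
      have e1 : Λ * ρ = 2 / r * b * ρ + 2 / a * K * ρ := by rw [hΛ]; ring
      have h3 : ‖F' s‖ ≤ Λ * ρ := by
        refine norm_prod_le_iff.2 ⟨?_, norm_prod_le_iff.2 ⟨?_, ?_⟩⟩
        · show ‖(0:ℝ)‖ ≤ _
          rw [norm_zero]
          positivity
        · exact hb1.trans (by linarith)
        · exact hb2.trans (by linarith)
      have h4 := hF1 s
      linarith)
    (by
      intro s hs hsη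
      have hm := hmem s hs
      have h0 := hFa s
      have h1 : f (z s) ∈ ball c₂ (3 * r) := by
        rw [mem_ball]
        have h2 : ‖f (z s) - f y₀‖ ≤ r := (hnear s hsη.le).1
        have h3 := hfy₀
        rw [mem_closedBall] at h3
        have h4 := dist_triangle (f (z s)) (f y₀) c₂
        rw [dist_eq_norm (f (z s)) (f y₀)] at h4
        linarith
      exact hzc.continuousAt.preimage_mem_nhds (hf.op _ hm h1))
    (by rw [hF0]; linarith)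
  have hall : ∀ s ∈ Icc (0:ℝ) 1, s ∈ DD ∩ Icc (0:ℝ) 1 ∧ ‖fderiv ℝ f (z s)‖ ≤ b := by
    intro s hs
    obtain ⟨k1, k2⟩ := key s hs
    rw [hF0, one_mul] at k2
    exact ⟨⟨k1, hs⟩, (hnear s (by linarith)).2⟩
  have e1 : z 1 = y₁ := by simp [hz, hw]
  have e0 : z 0 = y₀ := by simp [hz]
  obtain ⟨k1, k2⟩ := hall 1 ⟨zero_le_one, le_rfl⟩
  refine ⟨?_, ?_, ?_⟩
  · have h3 : z 1 ∈ D := k1.1
    rwa [e1] at h3
  · rwa [e1] at k2
  · have h4 := norm_image_sub_le_of_norm_deriv_le_segment_01' (f := fun s => f (z s))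
      (f' := fun s => fderiv ℝ f (z s) w) (C := b * ‖w‖)
      (fun s hs => (hfd s (hall s hs).1).hasDerivWithinAt)
      (fun s hs => (ContinuousLinearMap.le_opNorm _ _).trans (by
        have := (hall s ⟨hs.1, hs.2.le⟩).2
        gcongr))
    simp only [e1, e0] at h4
    exact h4

end Pool.Agent.H15.LR
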