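import Mathlib
import Pool.Agent.H75.LR.Stm2
import Pool.Agent.H15.LR.Dens
import Pool.Agent.H15.LR.Prop2

/-! Uniform divergence of the derivatives of the flow. -/

open scoped Topology ContDiff Manifold
open Set Filter Metric Pool.Agent.H826R2.WStmt Pool.Agent.W671.RStmt
open Pool.Agent.H75.PRStmt Pool.Agent.H75.PR Pool.Agent.H75.LR Pool.Agent.W671

noncomputable section

set_option maxSynthPendingDepth 3
set_option linter.unusedSectionVars false

namespace Pool.Agent.H15.LR

universe u v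

section

variable {E : Type u} [NormedAddCommGroup E] [NormedSpace ℝ E] [FiniteDimensional ℝ E]
  {M : Type v} [TopologicalSpace M] [ChartedSpace E M] [IsManifold 𝓘(ℝ, E) ∞ M]
  {F : Type*} [NormedAddCommGroup F] [NormedSpace ℝ F]

/-- the domain of the expression of `f` in the charts at `p` and `q` -/
def dom2 (E : Type*) [NormedAddCommGroup E] [NormedSpace ℝ E] {M : Type*} [TopologicalSpace M]
    [ChartedSpace E M] (p q : M) (r : ℝ) (f : M → M) : Set E :=
  {z | z ∈ (ch E p).target ∧ f ((ch E p).symm z) ∈ (ch E q).symm '' closedBall (ch E q q) (3 * r)}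

lemma dom2_sub {p q : M} {r : ℝ} {f : M → M}
    (hb2 : closedBall (ch E q q) (3 * r) ⊆ (ch E q).target) : dom2 E p q r f ⊆ ov E f p q := by
  rintro z ⟨h1, y, hy, h2⟩
  exact ⟨h1, by rw [← h2]; exact (ch E q).map_target (hb2 hy)⟩

lemma li2 [T2Space M] {g : M → Bil E} {p q : M} {r : ℝ} (hr : 0 < r)
    (hb1 : closedBall (ch E p p) (3 * r) ⊆ (ch E p).target)
    (hb2 : closedBall (ch E q q) (3 * r) ⊆ (ch E q).target) {f : M → M} (hf : Iso g f) :
    LI2 (cBil g p) (cBil g q) (ch E p p) (ch E q q) r (tau E f p q) (dom2 E p q r f) := by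
  have : ProperSpace E := FiniteDimensional.proper ℝ E
  have h23 : closedBall (ch E p p) (2 * r) ⊆ closedBall (ch E p p) (3 * r) :=
    closedBall_subset_closedBall (by linarith)
  have hL3 : IsClosed ((ch E q).symm '' closedBall (ch E q q) (3 * r)) :=
    ((isCompact_closedBall _ _).image_of_continuousOn
      ((continuousOn_extChartAt_symm (I := 𝓘(ℝ, E)) q).mono hb2)).isClosed
  have hdom := dom2_sub (p := p) (f := f) hb2
  have hev : ∀ z ∈ ov E f p q, ∀ᶠ y in 𝓝 z, y ∈ ov E f p q := fun z hz =>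
    (isOpen_ov hf.smooth.continuous).mem_nhds hz
  refine ⟨?_, ?_, ?_, ?_, ?_⟩
  · have h1 : dom2 E p q r f ∩ closedBall (ch E p p) (2 * r) = closedBall (ch E p p) (2 * r) ∩
        (fun z => f ((ch E p).symm z)) ⁻¹' ((ch E q).symm '' closedBall (ch E q q) (3 * r)) := by
      ext z
      constructor
      · rintro ⟨h1, h2⟩; exact ⟨h2, h1.2⟩
      · rintro ⟨h1, h2⟩; exact ⟨⟨hb1 (h23 h1), h2⟩, h1⟩
    rw [h1]
    refine ContinuousOn.preimage_isClosed_of_isClosed ?_ isClosed_closedBall hL3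
    exact hf.smooth.continuous.comp_continuousOn
      ((continuousOn_extChartAt_symm (I := 𝓘(ℝ, E)) p).mono (h23.trans hb1))
  · rintro z ⟨⟨h1, y, hy, h2⟩, h3⟩
    have h4 : tau E f p q z = y := by
      show ch E q (f ((ch E p).symm z)) = y
      rw [← h2]
      exact (ch E q).right_inv (hb2 hy)
    rw [h4]
    exact hy
  · rintro z ⟨h1, h2⟩
    exact (contDiffAt_tau hf.smooth (hdom h1)).of_le (by exact ENat.LEInfty.out)
  · rintro z ⟨h1, h2⟩
    filter_upwards [hev z (hdom h1)] with y hy u v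
    exact (cBil_tau hf.smooth hf.inv hy u v).symm
  · rintro z ⟨h1, h2⟩ h3
    have h4 := (contDiffAt_tau hf.smooth (hdom h1)).continuousAt.preimage_mem_nhds
      (isOpen_ball.mem_nhds h3)
    filter_upwards [h4, hev z (hdom h1)] with y h5 h6
    refine ⟨h6.1, tau E f p q y, ball_subset_closedBall h5, ?_⟩
    exact (ch E q).left_inv h6.2

end

/-- module UD -/
theorem ud : S_UD.{u, v} := by
  intro E _ _ _ hdim M _ _ _ _ _ _ α hα R hR Φ hΦ g hg hinv m e he hno C
  have : ProperSpace E := FiniteDimensional.proper ℝ E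
  by_contra hcon
  push Not at hcon
  apply hno
  have hRF := rf_of hα hR hΦ
  have hiso : ∀ s, Iso g (fun x => Φ x s) := fun s => ⟨hRF.smooth_t s, hinv s⟩
  set t : ℕ → ℝ := fun k => (k : ℝ) + 1 with ht
  choose x hx using fun k : ℕ => hcon (t k) (by simp only [ht]; positivity)
  set l : Ultrafilter ℕ := Filter.hyperfilter ℕ with hl
  have htl : Tendsto t l atTop := by
    have h1 : Tendsto t atTop atTop := tendsto_atTop_add_const_right _ _ tendsto_natCast_atTop_atTop
    refine h1.mono_left ?_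
    rw [← Nat.cofinite_eq_atTop]
    exact Filter.hyperfilter_le_cofinite
  obtain ⟨x', hx'⟩ := WU.exists_limit_compact l x
  obtain ⟨y, hy⟩ := WU.exists_limit_compact l (fun k => Φ (x k) (t k))
  -- the constants
  obtain ⟨r₁, C₁, c₁, m₁, L₁, hb₁⟩ := exists_box hg he x'
  obtain ⟨r₂, C₂, c₂, m₂, L₂, hb₂⟩ := exists_box hg he y
  have hr₁ := hb₁.met.hr
  have hr₂ := hb₂.met.hr
  set r := min r₁ r₂ with hr
  have hr0 : 0 < r := lt_min hr₁ hr₂
  have s₁ : closedBall (ch E x' x') (3 * r) ⊆ closedBall (ch E x' x') (3 * r₁) :=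
    closedBall_subset_closedBall (by have := min_le_left r₁ r₂; linarith)
  have s₂ : closedBall (ch E y y) (3 * r) ⊆ closedBall (ch E y y) (3 * r₂) :=
    closedBall_subset_closedBall (by have := min_le_right r₁ r₂; linarith)
  have s₁' : closedBall (ch E x' x') (2 * r) ⊆ closedBall (ch E x' x') (3 * r₁) :=
    (closedBall_subset_closedBall (by linarith)).trans s₁
  obtain ⟨N, hN⟩ := (isCompact_closedBall (ch E y y) (3 * r)).exists_bound_of_continuousOn
    ((contDiffOn_cBil hg y).continuousOn.mono (s₂.trans hb₂.sub))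
  set K : ℝ := max (max C₁ C₂) (max N 1) with hK
  have hK1 : C₁ ≤ K := (le_max_left _ _).trans (le_max_left _ _)
  have hK2 : C₂ ≤ K := (le_max_right _ _).trans (le_max_left _ _)
  have hK3 : N ≤ K := (le_max_left _ _).trans (le_max_right _ _)
  have hK4 : 1 ≤ K := (le_max_right _ _).trans (le_max_right _ _)
  set c : ℝ := min c₁ c₂ with hc
  have hc0 : 0 < c := lt_min hb₁.met.hc hb₂.met.hc
  have hMB : MB2 (cBil g x') (cBil g y) (ch E x' x') (ch E y y) r K c :=
    { hr := hr0
      hC := by linarith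
      hc := hc0
      diff1 := fun z hz => hb₁.met.diff z (s₁' hz)
      diff2 := fun z hz => hb₂.met.diff z (s₂ hz)
      bound1 := fun z hz => (hb₁.met.bound z (s₁' hz)).trans hK1
      bound2 := fun z hz => (hb₂.met.bound z (s₂ hz)).trans hK2
      up2 := fun z hz => (hN z hz).trans hK3
      low1 := fun z hz a => (mul_le_mul_of_nonneg_right (min_le_left _ _) (norm_nonneg _)).trans
        (hb₁.met.nondeg z (s₁' hz) a)
      low2 := fun z hz a => (mul_le_mul_of_nonneg_right (min_le_right _ _) (norm_nonneg _)).trans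
        (hb₂.met.nondeg z (s₂ hz) a)
      symm := fun z hz => hb₂.met.symm z (s₂ hz) }
  have hm₂ := hb₂.hm
  have hL₁ := hb₁.hL
  set a : ℝ := |C| * L₁ / m₂ + 1 with ha
  have ha0 : 0 < a := by positivity
  obtain ⟨ρ, hρ, hprop⟩ := propagate2 hMB ha0
  have hli : ∀ k, LI2 (cBil g x') (cBil g y) (ch E x' x') (ch E y y) r
      (tau E (fun z => Φ z (t k)) x' y) (dom2 E x' y r (fun z => Φ z (t k))) := fun k =>
    li2 hr0 (s₁.trans hb₁.sub) (s₂.trans hb₂.sub) (hiso (t k))
  set f : ℕ → E → E := fun k => tau E (fun z => Φ z (t k)) x' y with hf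
  set z : ℕ → E := fun k => ch E x' (x k) with hz
  -- limits
  have hsx : ∀ᶠ k in (l : Filter ℕ), x k ∈ (ch E x').source :=
    hx'.eventually ((isOpen_extChartAt_source x').mem_nhds (mem_extChartAt_source x'))
  have hsy : ∀ᶠ k in (l : Filter ℕ), Φ (x k) (t k) ∈ (ch E y).source :=
    hy.eventually ((isOpen_extChartAt_source y).mem_nhds (mem_extChartAt_source y))
  have hzl : Tendsto z l (𝓝 (ch E x' x')) :=
    ((continuousAt_extChartAt (I := 𝓘(ℝ, E)) x').tendsto).comp hx'
  have hwl : Tendsto (fun k => ch E y (Φ (x k) (t k))) l (𝓝 (ch E y y)) :=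
    ((continuousAt_extChartAt (I := 𝓘(ℝ, E)) y).tendsto).comp hy
  have hfz : ∀ᶠ k in (l : Filter ℕ), f k (z k) = ch E y (Φ (x k) (t k)) := by
    filter_upwards [hsx] with k hk
    show ch E y (Φ ((ch E x').symm (ch E x' (x k))) (t k)) = _
    rw [(ch E x').left_inv hk]
  have hzr : ∀ᶠ k in (l : Filter ℕ), z k ∈ closedBall (ch E x' x') r :=
    hzl.eventually (closedBall_mem_nhds _ hr0)
  have hwr : ∀ᶠ k in (l : Filter ℕ), ch E y (Φ (x k) (t k)) ∈ closedBall (ch E y y) r :=
    hwl.eventually (closedBall_mem_nhds _ hr0)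
  have hzρ : ∀ᶠ k in (l : Filter ℕ), ‖ch E x' x' - z k‖ ≤ ρ := by
    filter_upwards [hzl.eventually (closedBall_mem_nhds _ hρ)] with k hk
    rw [dist_eq_norm, norm_sub_rev] at hk
    exact hk
  -- the bound at `x k`
  have hbd : ∀ᶠ k in (l : Filter ℕ), ‖fderiv ℝ (f k) (z k)‖ ≤ a := by
    filter_upwards [hsx, hsy, hzr, hwr, hfz] with k k1 k2 k3 k4 k5
    have hzt : z k ∈ (ch E x').target := (ch E x').map_source k1
    have hsz : (ch E x').symm (z k) = x k := (ch E x').left_inv k1
    have hov : z k ∈ ov E (fun z => Φ z (t k)) x' y := by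
      refine ⟨hzt, ?_⟩
      rw [hsz]
      exact k2
    refine ContinuousLinearMap.opNorm_le_bound _ ha0.le fun u => ?_
    set w := fderiv ℝ (f k) (z k) u with hw
    have e1 := Dsy_tau (hiso (t k)).smooth hov u
    rw [hsz] at e1
    have hft : f k (z k) ∈ (ch E y).target := (ch E y).map_source hov.2
    have e2 : fderiv ℝ (e ∘ (ch E y).symm) (f k (z k)) w =
        D (E := E) (E' := EuclideanSpace ℝ (Fin m)) (fun y => e (Φ y (t k))) (x k)
          (Dsy E x' (z k) u) := by
      rw [fderiv_imm he.smooth hft]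
      have e3 : (ch E y).symm (f k (z k)) = Φ (x k) (t k) := by
        rw [k5]
        exact (ch E y).left_inv k2
      have e4 : D (E := E) (E' := EuclideanSpace ℝ (Fin m)) (e ∘ fun y => Φ y (t k)) (x k) =
          (D (E := E) (E' := EuclideanSpace ℝ (Fin m)) e (Φ (x k) (t k))).comp
            (D (E := E) (E' := E) (fun y => Φ y (t k)) (x k)) :=
        D_comp (he.smooth.mdifferentiableAt (by simp))
          ((hiso (t k)).smooth.mdifferentiableAt (by simp))
      have e5 : Dsy E y (f k (z k)) w =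
          D (E := E) (E' := E) (fun y => Φ y (t k)) (x k) (Dsy E x' (z k) u) := e1
      rw [e3, e5]
      exact (DFunLike.congr_fun e4 (Dsy E x' (z k) u)).symm
    have e6 : D (E := E) (E' := EuclideanSpace ℝ (Fin m)) e (x k) (Dsy E x' (z k) u) =
        fderiv ℝ (e ∘ (ch E x').symm) (z k) u := by
      rw [fderiv_imm he.smooth hzt, hsz]
    have hz3 : z k ∈ closedBall (ch E x' x') (3 * r₁) :=
      s₁ (closedBall_subset_closedBall (by linarith) k3)
    have hw3 : f k (z k) ∈ closedBall (ch E y y) (3 * r₂) := by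
      rw [k5]
      exact s₂ (closedBall_subset_closedBall (by linarith) k4)
    have h1 := hb₂.low (f k (z k)) hw3 w
    have h2 := hx k (Dsy E x' (z k) u)
    rw [e6, ← e2] at h2
    have h3 : ‖fderiv ℝ (e ∘ (ch E x').symm) (z k) u‖ ≤ L₁ * ‖u‖ :=
      (ContinuousLinearMap.le_opNorm _ _).trans
        (mul_le_mul_of_nonneg_right (hb₁.up (z k) hz3) (norm_nonneg _))
    have h4 : m₂ * ‖w‖ ≤ |C| * L₁ * ‖u‖ := by
      refine h1.trans (h2.trans ?_)
      calc C * ‖fderiv ℝ (e ∘ (ch E x').symm) (z k) u‖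
          ≤ |C| * ‖fderiv ℝ (e ∘ (ch E x').symm) (z k) u‖ :=
            mul_le_mul_of_nonneg_right (le_abs_self C) (norm_nonneg _)
        _ ≤ |C| * (L₁ * ‖u‖) := mul_le_mul_of_nonneg_left h3 (abs_nonneg C)
        _ = _ := by ring
    have h5 : ‖w‖ ≤ |C| * L₁ / m₂ * ‖u‖ := by
      rw [div_mul_eq_mul_div, le_div_iff₀ hm₂]
      linarith
    refine h5.trans ?_
    rw [ha]
    have := norm_nonneg u
    nlinarith
  -- propagation to `x'`
  have hmain : ∀ᶠ k in (l : Filter ℕ), ch E x' x' ∈ dom2 E x' y r (fun z => Φ z (t k)) ∧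
      ‖fderiv ℝ (f k) (ch E x' x')‖ ≤ 2 * a ∧
      ‖f k (ch E x' x') - f k (z k)‖ ≤ 2 * a * ‖ch E x' x' - z k‖ := by
    filter_upwards [hsx, hsy, hzr, hwr, hfz, hbd, hzρ] with k k1 k2 k3 k4 k5 k6 k7
    refine hprop _ _ (hli k) (z k) ⟨⟨(ch E x').map_source k1, ?_⟩, k3⟩ ?_ k6 _ k7
    · show Φ ((ch E x').symm (ch E x' (x k))) (t k) ∈ _
      rw [(ch E x').left_inv k1]
      exact ⟨ch E y (Φ (x k) (t k)), closedBall_subset_closedBall (by linarith) k4,
        (ch E y).left_inv k2⟩
    · show f k (z k) ∈ _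
      rw [k5]
      exact k4
  have hfl : Tendsto (fun k => f k (ch E x' x')) l (𝓝 (ch E y y)) := by
    have h1 : Tendsto (fun k => f k (ch E x' x') - f k (z k)) l (𝓝 0) := by
      have h2 : Tendsto (fun k => 2 * a * ‖ch E x' x' - z k‖) l (𝓝 0) := by
        have h3 : Tendsto (fun k => ‖ch E x' x' - z k‖) l (𝓝 0) := by
          have h4 := (tendsto_const_nhds (x := ch E x' x')).sub hzl
          rw [sub_self] at h4
          simpa using h4.norm
        simpa using h3.const_mul (2 * a)
      exact squeeze_zero_norm' (hmain.mono fun k hk => hk.2.2) h2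
    have h2 : Tendsto (fun k => f k (z k)) l (𝓝 (ch E y y)) :=
      hwl.congr' (hfz.mono fun k hk => hk.symm)
    have h3 := h1.add h2
    simpa using h3
  have hov : ∀ᶠ k in (l : Filter ℕ), ch E x' x' ∈ ov E (fun z => Φ z (t k)) x' y :=
    hmain.mono fun k hk => dom2_sub (s₂.trans hb₂.sub) hk.1
  have hs0 : (ch E x').symm (ch E x' x') = x' := extChartAt_to_inv x'
  have hlim : Tendsto (fun k => Φ x' (t k)) l (𝓝 y) := by
    have h1 : ContinuousAt (ch E y).symm (ch E y y) := continuousAt_extChartAt_symm y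
    have h2 := h1.tendsto.comp hfl
    rw [extChartAt_to_inv y] at h2
    refine h2.congr' ?_
    filter_upwards [hov] with k hk
    have h3 := symm_tau hk
    rw [hs0] at h3
    exact h3
  have hbound : ∀ᶠ k in (l : Filter ℕ), ‖hD (E := E) y (fun x => Φ x (t k)) x'‖ ≤
      2 * a * ‖D (E := E) (E' := E) (ch E x') x'‖ := by
    filter_upwards [hmain, hov] with k hk hk2
    refine ContinuousLinearMap.opNorm_le_bound _ (by positivity) fun v => ?_
    set u := D (E := E) (E' := E) (ch E x') x' v with hu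
    have e1 := Dsy_tau (hiso (t k)).smooth hk2 u
    have e2 : Dsy E x' (ch E x' x') u = v := D_symm_chart (mem_extChartAt_source x') v
    rw [e2, hs0] at e1
    have e3 : hD (E := E) y (fun x => Φ x (t k)) x' v = fderiv ℝ (f k) (ch E x' x') u := by
      have e4 := D_chart_symm (p := y) (y := tau E (fun z => Φ z (t k)) x' y (ch E x' x'))
        ((ch E y).map_source hk2.2) (fderiv ℝ (f k) (ch E x' x') u)
      have e5 : Dsy E y (tau E (fun z => Φ z (t k)) x' y (ch E x' x'))
          (fderiv ℝ (f k) (ch E x' x') u) =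
          D (E := E) (E' := E) (fun z => Φ z (t k)) x' v := e1
      rw [e5, symm_tau hk2, hs0] at e4
      exact e4
    rw [e3]
    calc ‖fderiv ℝ (f k) (ch E x' x') u‖ ≤ ‖fderiv ℝ (f k) (ch E x' x')‖ * ‖u‖ :=
          ContinuousLinearMap.le_opNorm _ _
      _ ≤ 2 * a * (‖D (E := E) (E' := E) (ch E x') x'‖ * ‖v‖) := by
          gcongr
          · exact hk.2.1
          · exact ContinuousLinearMap.le_opNorm _ _
      _ = _ := by ring
  exact periodic_of_near hdim hα hR he hΦ hRF.smooth_t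
      (fun δ hδ => exists_near hg he hRF hinv x' l htl hlim hbound hδ 1)

end Pool.Agent.H15.LR
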